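import Pool.Agent.R852.BC.Gal
import Mathlib.RingTheory.Henselian
import Mathlib.NumberTheory.Padics.RingHoms
import Mathlib.FieldTheory.Extension

set_option autoImplicit false

/-! The ring of integers of the splitting field maps to the `p`-adic integers. -/

namespace Pool.Agent.R852.FC

open Polynomial NumberField Pool.Agent.R852.BC

universe w

variable {L : Type w} [Field L] [NumberField L] [IsGalois ℚ L]

/-- the residues of the roots -/
lemma exists_residues {P : ℤ[X]} (hP : P.Monic) (b : ℤ) (hb : (b : 𝓞 L) = dprod L P)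
    (p : ℕ) [hp : Fact p.Prime] (hpb : ¬ (p : ℤ) ∣ b) {r : ℕ} (x : Fin r → ZMod p)
    (hx : P.map (Int.castRingHom (ZMod p)) = ∏ i, (X - C (x i))) :
    ∃ (k : Type w) (_ : Field k) (φ : 𝓞 L →+* k) (ψ : ZMod p →+* k) (c : 𝓞 L → ZMod p),
      (∀ u, aeval u P = 0 → φ u = ψ (c u)) ∧
      (∀ u v, aeval u P = 0 → aeval v P = 0 → c u = c v → u = v) := by
  classical
  have hpZ : Prime (p : ℤ) := Nat.prime_iff_prime_int.mp hp.out
  haveI hmax : (Ideal.span {(p : ℤ)}).IsMaximal :=
    PrincipalIdealRing.isMaximal_of_irreducible hpZ.irreducible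
  obtain ⟨Q, hQm, hQo⟩ := Ideal.exists_maximal_ideal_liesOver_of_isIntegral (S := 𝓞 L)
    (Ideal.span {(p : ℤ)})
  have hunder : Q.under ℤ = Ideal.span {(p : ℤ)} := hQo.over.symm
  letI : Field (𝓞 L ⧸ Q) := Ideal.Quotient.field Q
  let φ : 𝓞 L →+* (𝓞 L ⧸ Q) := Ideal.Quotient.mk Q
  have hint : ∀ z : ℤ, φ (z : 𝓞 L) = 0 ↔ (p : ℤ) ∣ z := by
    intro z
    rw [Ideal.Quotient.eq_zero_iff_mem]
    have h1 : (z : 𝓞 L) ∈ Q ↔ z ∈ Q.under ℤ := by
      rw [Ideal.under, Ideal.mem_comap]
      rfl
    rw [h1, hunder, Ideal.mem_span_singleton]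
  haveI hchar : CharP (𝓞 L ⧸ Q) p := by
    refine ⟨fun m => ?_⟩
    have h1 := hint m
    rw [Int.natCast_dvd_natCast, Int.cast_natCast, map_natCast] at h1
    exact h1
  let ψ : ZMod p →+* (𝓞 L ⧸ Q) := ZMod.castHom (dvd_refl p) _
  have hroots : ∀ u : 𝓞 L, aeval u P = 0 → ∃ c : ZMod p, φ u = ψ c := by
    intro u hu
    have h1 : (P.map (Int.castRingHom (𝓞 L ⧸ Q))).eval (φ u) = 0 := by
      rw [eval_map]
      have h2 := congrArg φ hu
      rw [map_zero, aeval_def, hom_eval₂] at h2
      have e : Int.castRingHom (𝓞 L ⧸ Q) = φ.comp (algebraMap ℤ (𝓞 L)) := RingHom.ext_int _ _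
      rw [e]
      exact h2
    have h2 : P.map (Int.castRingHom (𝓞 L ⧸ Q)) =
        (P.map (Int.castRingHom (ZMod p))).map ψ := by
      rw [Polynomial.map_map]
      congr 1
      exact RingHom.ext_int _ _
    rw [h2, hx, Polynomial.map_prod, eval_prod, Finset.prod_eq_zero_iff] at h1
    obtain ⟨i, _, hi⟩ := h1
    rw [Polynomial.map_sub, map_X, map_C, eval_sub, eval_X, eval_C, sub_eq_zero] at hi
    exact ⟨x i, hi⟩
  let c : 𝓞 L → ZMod p := fun u => if h : aeval u P = 0 then (hroots u h).choose else 0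
  have hc : ∀ u, aeval u P = 0 → φ u = ψ (c u) := by
    intro u hu
    show φ u = ψ (if h : aeval u P = 0 then (hroots u h).choose else 0)
    rw [dif_pos hu]
    exact (hroots u hu).choose_spec
  refine ⟨𝓞 L ⧸ Q, inferInstance, φ, ψ, c, hc, ?_⟩
  intro u v hu hv huv
  by_contra hne
  apply hpb
  rw [← hint, hb]
  have hu1 : u ∈ rts L P := (mem_rts hP u).mpr hu
  have hv1 : v ∈ rts L P := (mem_rts hP v).mpr hv
  unfold dprod
  rw [map_prod]
  apply Finset.prod_eq_zero (i := u) (Multiset.mem_toFinset.mpr hu1)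
  rw [map_prod]
  apply Finset.prod_eq_zero (i := v)
  · rw [Finset.mem_erase]
    exact ⟨fun h => hne h.symm, Multiset.mem_toFinset.mpr hv1⟩
  · rw [map_sub, hc u hu, hc v hv, huv, sub_self]

open Classical in
/-- the polynomial with the same roots and without multiple roots -/
lemma exists_radical {P : ℤ[X]} (hP : P.Monic) : ∃ R : ℤ[X], R.Monic ∧
    R.map (algebraMap ℤ (𝓞 L)) = ∏ u ∈ (rts L P).toFinset, (X - C u) := by
  classical
  haveI : IsGaloisGroup Gal(L/ℚ) ℤ (𝓞 L) := inferInstance
  set R₀ : (𝓞 L)[X] := ∏ u ∈ (rts L P).toFinset, (X - C u) with hR₀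
  have hmon : R₀.Monic := monic_prod_of_monic _ _ fun u _ => monic_X_sub_C u
  have hfix : ∀ σ : Gal(L/ℚ), R₀.map (MulSemiringAction.toRingHom Gal(L/ℚ) (𝓞 L) σ) = R₀ := by
    intro σ
    have hinj : Function.Injective fun u : 𝓞 L => σ • u := MulAction.injective σ
    have himg : (rts L P).toFinset.image (fun u => σ • u) = (rts L P).toFinset := by
      apply Finset.eq_of_subset_of_card_le
      · intro v hv
        rw [Finset.mem_image] at hv
        obtain ⟨u, hu, rfl⟩ := hv
        rw [Multiset.mem_toFinset] at hu ⊢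
        exact smul_mem_rts hP σ hu
      · rw [Finset.card_image_of_injective _ hinj]
    rw [hR₀, Polynomial.map_prod]
    nth_rewrite 2 [← himg]
    rw [Finset.prod_image (fun a _ b _ h => hinj h)]
    refine Finset.prod_congr rfl fun u _ => ?_
    rw [Polynomial.map_sub, map_X, map_C]
    rfl
  have hlift : R₀ ∈ lifts (algebraMap ℤ (𝓞 L)) := by
    rw [lifts_iff_coeff_lifts]
    intro n
    obtain ⟨a, ha⟩ := Algebra.IsInvariant.isInvariant (A := ℤ) (G := Gal(L/ℚ)) (R₀.coeff n) (by
      intro σ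
      have h1 := congrArg (fun q => coeff q n) (hfix σ)
      simp only [coeff_map] at h1
      exact h1)
    exact ⟨a, ha⟩
  obtain ⟨R, hR1, _, hR3⟩ := lifts_and_natDegree_eq_and_monic hlift hmon
  exact ⟨R, hR3, hR1⟩

/-- **The embedding.** -/
theorem emb {P : ℤ[X]} (hP : P.Monic) (hgen : Algebra.adjoin ℚ {u : L | aeval u P = 0} = ⊤)
    (b : ℤ) (hb : (b : 𝓞 L) = dprod L P)
    (p : ℕ) [hp : Fact p.Prime] (hpb : ¬ (p : ℤ) ∣ b) {r : ℕ} (x : Fin r → ZMod p)
    (hx : P.map (Int.castRingHom (ZMod p)) = ∏ i, (X - C (x i))) : Nonempty (𝓞 L →+* ℤ_[p]) := by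
  classical
  obtain ⟨k, _, φ, ψ, c, hc, hinj⟩ := exists_residues hP b hb p hpb x hx
  obtain ⟨R, hRm, hR⟩ := exists_radical (L := L) hP
  set s := (rts L P).toFinset with hs
  have hmem : ∀ u, u ∈ s ↔ aeval u P = 0 := fun u => by
    rw [hs, Multiset.mem_toFinset, mem_rts hP]
  -- the radical modulo `p`
  have hRp : R.map (Int.castRingHom (ZMod p)) = ∏ u ∈ s, (X - C (c u)) := by
    apply Polynomial.map_injective ψ ψ.injective
    rw [Polynomial.map_map, Polynomial.map_prod]
    have e : ψ.comp (Int.castRingHom (ZMod p)) = φ.comp (algebraMap ℤ (𝓞 L)) :=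
      RingHom.ext_int _ _
    rw [e, ← Polynomial.map_map, hR, Polynomial.map_prod]
    refine Finset.prod_congr rfl fun u hu => ?_
    rw [Polynomial.map_sub, map_X, map_C, Polynomial.map_sub, map_X, map_C, hc u ((hmem u).mp hu)]
  -- Hensel
  have hens : ∀ u ∈ s, ∃ ζ : ℤ_[p], (R.map (Int.castRingHom ℤ_[p])).IsRoot ζ ∧
      PadicInt.toZMod ζ = c u := by
    intro u hu
    have e : (PadicInt.toZMod (p := p)).comp (Int.castRingHom ℤ_[p]) = Int.castRingHom (ZMod p) :=
      RingHom.ext_int _ _
    have ha0 : PadicInt.toZMod (((c u).val : ℕ) : ℤ_[p]) = c u := by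
      rw [map_natCast, ZMod.natCast_zmod_val]
    have hev : ∀ q : ℤ[X], PadicInt.toZMod ((q.map (Int.castRingHom ℤ_[p])).eval
        (((c u).val : ℕ) : ℤ_[p])) = (q.map (Int.castRingHom (ZMod p))).eval (c u) := by
      intro q
      rw [← Polynomial.eval₂_hom, ← Polynomial.eval_map, Polynomial.map_map, e, ha0]
    obtain ⟨ζ, hζ, hζ'⟩ := HenselianRing.is_henselian (I := IsLocalRing.maximalIdeal ℤ_[p])
      (R.map (Int.castRingHom ℤ_[p])) (hRm.map _) (((c u).val : ℕ) : ℤ_[p]) (by
        rw [← PadicInt.ker_toZMod, RingHom.mem_ker, hev, hRp, eval_prod]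
        apply Finset.prod_eq_zero hu
        simp) (by
        apply IsUnit.map
        by_contra hnu
        have h1 : (derivative (R.map (Int.castRingHom ℤ_[p]))).eval (((c u).val : ℕ) : ℤ_[p]) ∈
            IsLocalRing.maximalIdeal ℤ_[p] := hnu
        rw [← PadicInt.ker_toZMod, RingHom.mem_ker, derivative_map, hev, ← derivative_map, hRp,
          derivative_prod_finset, eval_finsetSum, Finset.sum_eq_single u] at h1
        · rw [derivative_X_sub_C, mul_one, eval_prod, Finset.prod_eq_zero_iff] at h1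
          obtain ⟨v, hv, hv0⟩ := h1
          rw [eval_sub, eval_X, eval_C, sub_eq_zero] at hv0
          rw [Finset.mem_erase] at hv
          exact hv.1 (hinj u v ((hmem u).mp hu) ((hmem v).mp hv.2) hv0).symm
        · intro v _ hv
          rw [eval_mul, eval_prod, Finset.prod_eq_zero (i := u), zero_mul]
          · exact Finset.mem_erase.mpr ⟨hv.symm, hu⟩
          · simp
        · intro h
          exact absurd hu h)
    refine ⟨ζ, hζ, ?_⟩
    rw [← PadicInt.ker_toZMod, RingHom.mem_ker, map_sub, ha0, sub_eq_zero] at hζ'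
    exact hζ'
  -- the radical splits over `ℚ_[p]`
  have hsplit : (R.map (Int.castRingHom ℚ_[p])).Splits := by
    rw [splits_iff_card_roots]
    apply le_antisymm (card_roots' _)
    have hdeg : (R.map (Int.castRingHom ℚ_[p])).natDegree = s.card := by
      rw [hRm.natDegree_map, ← hRm.natDegree_map (algebraMap ℤ (𝓞 L)), hR,
        natDegree_finsetProd_X_sub_C_eq_card]
    rw [hdeg]
    choose! ζ hζ1 hζ2 using hens
    have hζinj : Set.InjOn (fun u => ((ζ u : ℤ_[p]) : ℚ_[p])) (s : Set (𝓞 L)) := by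
      intro u hu v hv huv
      have h1 : ζ u = ζ v := PadicInt.ext huv
      exact hinj u v ((hmem u).mp hu) ((hmem v).mp hv) (by rw [← hζ2 u hu, ← hζ2 v hv, h1])
    rw [← Finset.card_image_of_injOn hζinj]
    refine le_trans (Finset.card_le_card ?_) (Multiset.toFinset_card_le _)
    intro z hz
    rw [Finset.mem_image] at hz
    obtain ⟨u, hu, rfl⟩ := hz
    rw [Multiset.mem_toFinset, mem_roots (hRm.map _).ne_zero]
    have h1 : (Int.castRingHom ℚ_[p]) = (PadicInt.Coe.ringHom (p := p)).comp
        (Int.castRingHom ℤ_[p]) := RingHom.ext_int _ _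
    rw [h1, ← Polynomial.map_map]
    exact (hζ1 u hu).map
  -- the embedding of the field
  have hne : Nonempty (L →ₐ[ℚ] ℚ_[p]) := by
    apply IntermediateField.nonempty_algHom_of_adjoin_splits (F := ℚ) (E := L) (K := ℚ_[p])
      (S := {u : L | aeval u P = 0})
    · intro u hu
      have hu' : aeval u P = 0 := hu
      have hui : IsIntegral ℤ u := ⟨P, hP, by rw [← aeval_def]; exact hu'⟩
      refine ⟨hui.tower_top, ?_⟩
      let w : 𝓞 L := ⟨u, hui⟩
      have hw : aeval w P = 0 := by
        apply FaithfulSMul.algebraMap_injective (𝓞 L) L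
        rw [map_zero]
        have h1 := Polynomial.aeval_algebraMap_apply L w P
        rw [← h1]
        exact hu'
      have hRu : aeval u (R.map (Int.castRingHom ℚ)) = 0 := by
        have h1 : (R.map (algebraMap ℤ (𝓞 L))).eval w = 0 := by
          rw [hR, eval_prod]
          apply Finset.prod_eq_zero ((hmem w).mpr hw)
          simp
        have h2 := congrArg (algebraMap (𝓞 L) L) h1
        rw [map_zero, eval_map, hom_eval₂] at h2
        rw [aeval_def, eval₂_map]
        have e : (algebraMap ℚ L).comp (Int.castRingHom ℚ) =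
            (algebraMap (𝓞 L) L).comp (algebraMap ℤ (𝓞 L)) := RingHom.ext_int _ _
        rw [e]
        exact h2
      have hdvd := minpoly.dvd ℚ u hRu
      have hs' : ((R.map (Int.castRingHom ℚ)).map (algebraMap ℚ ℚ_[p])).Splits := by
        rw [Polynomial.map_map]
        have e : (algebraMap ℚ ℚ_[p]).comp (Int.castRingHom ℚ) = Int.castRingHom ℚ_[p] :=
          RingHom.ext_int _ _
        rw [e]
        exact hsplit
      exact hs'.of_dvd ((hRm.map _).map _).ne_zero (Polynomial.map_dvd _ hdvd)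
    · rw [eq_top_iff]
      intro z _
      have h1 : z ∈ (Algebra.adjoin ℚ {u : L | aeval u P = 0}) := by
        rw [hgen]
        trivial
      exact IntermediateField.algebra_adjoin_le_adjoin ℚ _ h1
  obtain ⟨ι⟩ := hne
  -- integrality
  have hint : ∀ z : 𝓞 L, ‖ι (z : L)‖ ≤ 1 := by
    intro z
    have h1 : IsIntegral ℤ (ι (z : L)) := (RingOfIntegers.isIntegral_coe z).map (ι.restrictScalars ℤ)
    have h2 : IsIntegral ℤ_[p] (ι (z : L)) := h1.tower_top
    obtain ⟨y, hy⟩ := (IsIntegrallyClosed.isIntegral_iff (R := ℤ_[p]) (K := ℚ_[p])).mp h2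
    rw [← hy]
    exact y.2
  exact ⟨{ toFun := fun z => ⟨ι (z : L), hint z⟩
           map_one' := by
            apply PadicInt.ext
            show ι (algebraMap (𝓞 L) L 1) = 1
            rw [map_one, map_one]
           map_mul' := fun a c => by
            apply PadicInt.ext
            show ι (algebraMap (𝓞 L) L (a * c)) = ι (algebraMap (𝓞 L) L a) * ι (algebraMap (𝓞 L) L c)
            rw [map_mul, map_mul]
           map_zero' := by
            apply PadicInt.ext
            show ι (algebraMap (𝓞 L) L 0) = 0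
            rw [map_zero, map_zero]
           map_add' := fun a c => by
            apply PadicInt.ext
            show ι (algebraMap (𝓞 L) L (a + c)) = ι (algebraMap (𝓞 L) L a) + ι (algebraMap (𝓞 L) L c)
            rw [map_add, map_add] }⟩

end Pool.Agent.R852.FC
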