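import Mathlib.NumberTheory.NumberField.Discriminant.Basic

set_option autoImplicit false

/-! A small algebraic integer which is not rational. -/

namespace Pool.Agent.R852.FC

open NumberField NumberField.mixedEmbedding NumberField.InfinitePlace Module
open scoped NNReal ENNReal

lemma place_int (K : Type) [Field K] [NumberField K] (w : InfinitePlace K) (m : ℤ) :
    w (m : K) = |(m : ℝ)| := by
  rw [← norm_embedding_eq, map_intCast, Complex.norm_intCast]

lemma mink_le (K : Type) [Field K] [NumberField K] :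
    minkowskiBound K ↑1 ≤ ((NNReal.sqrt ‖discr K‖₊ * 2 ^ (finrank ℚ K) : ℝ≥0) : ℝ≥0∞) := by
  rw [minkowskiBound, volume_fundamentalDomain_fractionalIdealLatticeBasis,
    Units.val_one, FractionalIdeal.absNorm_one, Rat.cast_one,
    ENNReal.ofReal_one, one_mul, mixedEmbedding.finrank, volume_fundamentalDomain_latticeBasis,
    ENNReal.coe_mul, ENNReal.coe_pow, ENNReal.coe_ofNat]
  have h1 : ((2 : ℝ≥0∞)⁻¹) ^ nrComplexPlaces K ≤ 1 := pow_le_one₀ (by positivity) (by simp)
  calc _ ≤ 1 * ((NNReal.sqrt ‖discr K‖₊ : ℝ≥0) : ℝ≥0∞) * 2 ^ (finrank ℚ K) := by gcongr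
    _ = _ := by rw [one_mul]

theorem exists_small (K : Type) [Field K] [NumberField K] (T : ℝ) (hT : 1 ≤ T)
    (h : (2 : ℝ) ^ (finrank ℚ K) * √|(discr K : ℝ)| < T ^ (finrank ℚ K - 1)) :
    ∃ a : 𝓞 K, (∀ m : ℤ, a ≠ m) ∧ ∀ w : InfinitePlace K, w a < 1 + T := by
  classical
  set T' : ℝ≥0 := T.toNNReal with hT'
  have hT'r : (T' : ℝ) = T := Real.coe_toNNReal T (by linarith)
  set d := finrank ℚ K with hd
  have hlt : (NNReal.sqrt ‖discr K‖₊ * 2 ^ d : ℝ≥0) < T' ^ (d - 1) := by
    rw [← NNReal.coe_lt_coe]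
    push_cast
    rw [hT'r, mul_comm]
    convert h using 3
    exact Int.norm_eq_abs _
  have hmink : minkowskiBound K ↑1 < ((T' ^ (d - 1) : ℝ≥0) : ℝ≥0∞) :=
    lt_of_le_of_lt (mink_le K) (ENNReal.coe_lt_coe.mpr hlt)
  have hsum : ∀ w₀ : InfinitePlace K,
      ∑ w ∈ Finset.univ.erase w₀, mult w = d - mult w₀ := by
    intro w₀
    have h1 := Finset.sum_erase_add (Finset.univ) (fun w : InfinitePlace K => mult w)
      (Finset.mem_univ w₀)
    rw [sum_mult_eq] at h1
    omega
  by_cases hreal : ∃ w₀ : InfinitePlace K, IsReal w₀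
  · obtain ⟨w₀, hw₀⟩ := hreal
    have hvol : minkowskiBound K ↑1 <
        MeasureTheory.volume (convexBodyLT K (fun w ↦ if w = w₀ then 1 else T')) := by
      rw [convexBodyLT_volume, ← Finset.prod_erase_mul _ _ (Finset.mem_univ w₀)]
      have e1 : ∏ w ∈ Finset.univ.erase w₀, (if w = w₀ then (1 : ℝ≥0) else T' : ℝ≥0) ^
          mult w = T' ^ (d - 1) := by
        have e2 : ∀ w ∈ Finset.univ.erase w₀,
            (if w = w₀ then (1 : ℝ≥0) else T' : ℝ≥0) ^ mult w = T' ^ mult w := by
          intro w hw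
          rw [if_neg (Finset.ne_of_mem_erase hw)]
        rw [Finset.prod_congr rfl e2, Finset.prod_pow_eq_pow_sum, hsum w₀, mult, if_pos hw₀]
      rw [e1, if_pos rfl, one_pow, mul_one]
      refine lt_of_lt_of_le hmink ?_
      have e3 : (1 : ℝ≥0∞) ≤ (convexBodyLTFactor K : ℝ≥0∞) := by
        exact_mod_cast one_le_convexBodyLTFactor K
      calc ((T' ^ (d - 1) : ℝ≥0) : ℝ≥0∞) = 1 * ((T' ^ (d - 1) : ℝ≥0) : ℝ≥0∞) := by rw [one_mul]
        _ ≤ _ := by gcongr
    obtain ⟨a, ha0, ha⟩ := exists_ne_zero_mem_ringOfIntegers_lt K hvol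
    refine ⟨a, ?_, ?_⟩
    · intro m hm
      have h1 := ha w₀
      rw [if_pos rfl, NNReal.coe_one] at h1
      have h2 : ((a : 𝓞 K) : K) = (m : K) := by
        rw [hm]
        exact map_intCast (algebraMap (𝓞 K) K) m
      rw [h2, place_int] at h1
      have h3 : |m| < 1 := by exact_mod_cast h1
      have h4 : m = 0 := by rwa [Int.abs_lt_one_iff] at h3
      apply ha0
      rw [hm, h4, Int.cast_zero]
    · intro w
      have h1 := ha w
      by_cases hw : w = w₀
      · rw [if_pos hw, NNReal.coe_one] at h1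
        linarith
      · rw [if_neg hw, hT'r] at h1
        linarith
  · push Not at hreal
    obtain ⟨w₀⟩ : Nonempty (InfinitePlace K) := inferInstance
    have hw₀ : IsComplex w₀ := not_isReal_iff_isComplex.mp (hreal w₀)
    have hd2 : 2 ≤ d := by
      have h1 := Finset.sum_erase_add (Finset.univ) (fun w : InfinitePlace K => mult w)
        (Finset.mem_univ w₀)
      rw [sum_mult_eq, mult, if_neg (hreal w₀)] at h1
      omega
    have hvol : minkowskiBound K ↑1 <
        MeasureTheory.volume (convexBodyLT' K (fun w ↦ if w = w₀ then NNReal.sqrt T' else T')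
          ⟨w₀, hw₀⟩) := by
      rw [convexBodyLT'_volume, ← Finset.prod_erase_mul _ _ (Finset.mem_univ w₀)]
      have e1 : ∏ w ∈ Finset.univ.erase w₀,
          (if w = w₀ then NNReal.sqrt T' else T' : ℝ≥0) ^ mult w = T' ^ (d - 2) := by
        have e2 : ∀ w ∈ Finset.univ.erase w₀,
            (if w = w₀ then NNReal.sqrt T' else T' : ℝ≥0) ^ mult w = T' ^ mult w := by
          intro w hw
          rw [if_neg (Finset.ne_of_mem_erase hw)]
        rw [Finset.prod_congr rfl e2, Finset.prod_pow_eq_pow_sum, hsum w₀, mult,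
          if_neg (hreal w₀)]
      rw [e1, if_pos rfl, mult, if_neg (hreal w₀), NNReal.sq_sqrt, ← pow_succ]
      have e4 : d - 2 + 1 = d - 1 := by omega
      rw [e4]
      refine lt_of_lt_of_le hmink ?_
      have e3 : (1 : ℝ≥0∞) ≤ (convexBodyLT'Factor K : ℝ≥0∞) := by
        exact_mod_cast one_le_convexBodyLT'Factor K
      calc ((T' ^ (d - 1) : ℝ≥0) : ℝ≥0∞) = 1 * ((T' ^ (d - 1) : ℝ≥0) : ℝ≥0∞) := by rw [one_mul]
        _ ≤ _ := by gcongr
    obtain ⟨a, ha0, ha, hre, him⟩ := exists_ne_zero_mem_ringOfIntegers_lt' K ⟨w₀, hw₀⟩ hvol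
    refine ⟨a, ?_, ?_⟩
    · intro m hm
      have h2 : ((a : 𝓞 K) : K) = (m : K) := by
        rw [hm]
        exact map_intCast (algebraMap (𝓞 K) K) m
      rw [h2, map_intCast, Complex.intCast_re] at hre
      have h3 : |m| < 1 := by exact_mod_cast hre
      have h4 : m = 0 := by rwa [Int.abs_lt_one_iff] at h3
      apply ha0
      rw [hm, h4, Int.cast_zero]
    · intro w
      by_cases hw : w = w₀
      · rw [hw, ← norm_embedding_eq]
        have h1 := Complex.norm_le_abs_re_add_abs_im (w₀.embedding (a : K))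
        have h2 : |(w₀.embedding (a : K)).im| < T := by
          have h3 := him
          simp only [if_true] at h3
          rw [← NNReal.coe_pow, NNReal.sq_sqrt, hT'r] at h3
          exact h3
        linarith
      · have h1 := ha w hw
        rw [if_neg hw, hT'r] at h1
        linarith

end Pool.Agent.R852.FC
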