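import Pool.Agent.R852.FC.House
import Pool.Agent.R852.FC.Mink

set_option autoImplicit false

/-! The field generated by the Chern roots: sizes of algebraic integers, discriminants. -/

namespace Pool.Agent.R852.FC

open Polynomial NumberField Filter Module Pool.Agent.R852.BC Pool.Agent.R920.CH

/-- **Sizes of algebraic integers in the field of Chern roots.** -/
theorem houseC (r : ℕ) (A ε : ℝ) (hε : 0 < ε) : ∀ᶠ n : ℕ in atTop, ∀ P : ℤ[X], P.Monic →
    P.natDegree = r → RiemannRoch n P → (∀ i, (|P.coeff i| : ℤ) ≤ (n : ℝ) ^ A) →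
    ∀ α ∈ IntermediateField.adjoin ℚ {u : ℂ | u ∈ rootsOf P}, IsIntegral ℤ α →
      (∀ m : ℤ, α ≠ m) → ∃ β : ℂ, aeval β (minpoly ℚ α) = 0 ∧ (n : ℝ) ^ (1 - ε) < ‖β‖ := by
  filter_upwards [house r A ε hε] with n hn P hP hr hRR hA α hαL hα hαm
  have hset : {u : ℂ | u ∈ rootsOf P} = (P.map (Int.castRingHom ℚ)).rootSet ℂ := by
    ext u
    rw [Set.mem_setOf_eq, rootsOf, mem_roots (hP.map _).ne_zero, IsRoot.def, eval_map, mem_rootSet,
      aeval_def, eval₂_map]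
    have e : (algebraMap ℚ ℂ).comp (Int.castRingHom ℚ) = Int.castRingHom ℂ := RingHom.ext_int _ _
    rw [e]
    exact ⟨fun h => ⟨(hP.map _).ne_zero, h⟩, fun h => h.2⟩
  rw [hset] at hαL
  haveI hs : IsSplittingField ℚ (IntermediateField.adjoin ℚ ((P.map (Int.castRingHom ℚ)).rootSet ℂ))
      (P.map (Int.castRingHom ℚ)) :=
    IntermediateField.adjoin_rootSet_isSplittingField (IsAlgClosed.splits _)
  set L := IntermediateField.adjoin ℚ ((P.map (Int.castRingHom ℚ)).rootSet ℂ) with hL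
  let α' : L := ⟨α, hαL⟩
  have hα' : IsIntegral ℤ α' := by
    have h1 : IsIntegral ℤ (algebraMap L ℂ α') := hα
    exact (isIntegral_algebraMap_iff (FaithfulSMul.algebraMap_injective L ℂ)).mp h1
  obtain ⟨σ, hσ⟩ := hn P hP hr hRR hA L (algebraMap L ℂ) α' hα' (by
    intro m hm
    apply hαm m
    have := congrArg (algebraMap L ℂ) hm
    rw [map_intCast] at this
    exact this)
  refine ⟨algebraMap L ℂ (σ α'), ?_, hσ⟩
  have h1 : minpoly ℚ α = minpoly ℚ α' := by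
    have := minpoly.algebraMap_eq (A := ℚ) (B := L) (B' := ℂ) (FaithfulSMul.algebraMap_injective L ℂ) α'
    exact this
  rw [h1]
  have h2 := Polynomial.aeval_algHom_apply ((IsScalarTower.toAlgHom ℚ L ℂ).comp (σ : L →ₐ[ℚ] L)) α'
    (minpoly ℚ α')
  rw [minpoly.aeval, map_zero] at h2
  exact h2

/-- **Discriminants of the subfields of the field of Chern roots.** -/
theorem discrC (r : ℕ) (A ε : ℝ) (hε : 0 < ε) : ∀ᶠ n : ℕ in atTop, ∀ P : ℤ[X], P.Monic →
    P.natDegree = r → RiemannRoch n P → (∀ i, (|P.coeff i| : ℤ) ≤ (n : ℝ) ^ A) →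
    ∀ (K : Type) [Field K] [NumberField K] (φ : K →+* ℂ),
      (∀ x, φ x ∈ IntermediateField.adjoin ℚ {u : ℂ | u ∈ rootsOf P}) → 1 < finrank ℚ K →
      (n : ℝ) ^ ((2 - ε) * ((finrank ℚ K : ℝ) - 1)) < |(discr K : ℝ)| := by
  wlog hε1 : ε ≤ 1 generalizing ε
  · filter_upwards [this 1 one_pos le_rfl, eventually_ge_atTop 1]
      with n hn hn1 P hP hr hRR hA K _ _ φ hφ hd
    refine lt_of_le_of_lt ?_ (hn P hP hr hRR hA K φ hφ hd)
    apply Real.rpow_le_rpow_of_exponent_le (by exact_mod_cast hn1)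
    have hd1 : (1 : ℝ) < finrank ℚ K := by exact_mod_cast hd
    nlinarith
  have tc : Tendsto (fun q : ℕ => (q : ℝ)) atTop atTop := tendsto_natCast_atTop_atTop
  have f1 : ∀ᶠ x : ℝ in atTop, 5 ≤ x ^ (ε / 6) :=
    (tendsto_rpow_atTop (by positivity : (0 : ℝ) < ε / 6)).eventually_ge_atTop _
  have f2 : ∀ᶠ x : ℝ in atTop, 2 ≤ x ^ (ε / 12) :=
    (tendsto_rpow_atTop (by positivity : (0 : ℝ) < ε / 12)).eventually_ge_atTop _
  filter_upwards [houseC r A (ε / 4) (by positivity), tc.eventually f1, tc.eventually f2,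
    eventually_ge_atTop 1] with n hn g1 g2 hn1' P hP hr hRR hA K _ _ φ hφ hd
  by_contra hcon
  push Not at hcon
  have hn1 : (1 : ℝ) ≤ n := by exact_mod_cast hn1'
  have hn0 : (0 : ℝ) < n := by linarith
  set d := finrank ℚ K with hdd
  obtain ⟨e, he⟩ : ∃ e, d = e + 2 := ⟨d - 2, by omega⟩
  set T : ℝ := (n : ℝ) ^ (1 - ε / 3) with hT
  have hT1 : 1 ≤ T := Real.one_le_rpow hn1 (by linarith)
  have hsmall : (2 : ℝ) ^ d * √|(discr K : ℝ)| < T ^ (d - 1) := by
    have h1 : √|(discr K : ℝ)| ≤ (n : ℝ) ^ ((1 - ε / 2) * ((e : ℝ) + 1)) := by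
      calc √|(discr K : ℝ)| ≤ √((n : ℝ) ^ ((2 - ε) * ((d : ℝ) - 1))) := Real.sqrt_le_sqrt hcon
        _ = (n : ℝ) ^ ((1 - ε / 2) * ((e : ℝ) + 1)) := by
            rw [Real.sqrt_eq_rpow, ← Real.rpow_mul hn0.le, he]
            congr 1
            push_cast
            ring
    have h2 : T ^ (d - 1) = (n : ℝ) ^ ((ε / 6) * ((e : ℝ) + 1)) *
        (n : ℝ) ^ ((1 - ε / 2) * ((e : ℝ) + 1)) := by
      have e1 : d - 1 = e + 1 := by omega
      rw [e1, hT, ← Real.rpow_natCast, ← Real.rpow_mul hn0.le, ← Real.rpow_add hn0]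
      congr 1
      push_cast
      ring
    have h3 : (2 : ℝ) ^ d < (n : ℝ) ^ ((ε / 6) * ((e : ℝ) + 1)) := by
      calc (2 : ℝ) ^ d = 2 ^ e * 4 := by rw [he, pow_add]; norm_num
        _ ≤ 5 ^ e * 4 := by gcongr; norm_num
        _ < 5 ^ e * 5 := by
            have : (0 : ℝ) < 5 ^ e := by positivity
            linarith
        _ = 5 ^ (e + 1) := by rw [pow_succ]
        _ ≤ ((n : ℝ) ^ (ε / 6)) ^ (e + 1) := by gcongr
        _ = (n : ℝ) ^ ((ε / 6) * ((e : ℝ) + 1)) := by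
            rw [← Real.rpow_natCast, ← Real.rpow_mul hn0.le]
            push_cast
            rfl
    have h4 : 0 < (n : ℝ) ^ ((1 - ε / 2) * ((e : ℝ) + 1)) := Real.rpow_pos_of_pos hn0 _
    rw [h2]
    calc (2 : ℝ) ^ d * √|(discr K : ℝ)| ≤ 2 ^ d * (n : ℝ) ^ ((1 - ε / 2) * ((e : ℝ) + 1)) := by
          gcongr
      _ < (n : ℝ) ^ ((ε / 6) * ((e : ℝ) + 1)) * (n : ℝ) ^ ((1 - ε / 2) * ((e : ℝ) + 1)) :=
          mul_lt_mul_of_pos_right h3 h4
  obtain ⟨a, ham, haw⟩ := exists_small K T hT1 hsmall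
  have hTn : 1 + T ≤ (n : ℝ) ^ (1 - ε / 4) := by
    calc 1 + T ≤ 2 * T := by linarith
      _ ≤ (n : ℝ) ^ (ε / 12) * T := by gcongr
      _ = (n : ℝ) ^ (1 - ε / 4) := by
          rw [hT, ← Real.rpow_add hn0]
          congr 1
          ring
  have hint : IsIntegral ℤ (φ (a : K)) := by
    have h1 := (RingOfIntegers.isIntegral_coe a).map (φ.toIntAlgHom)
    exact h1
  obtain ⟨β, hβ, hβn⟩ := hn P hP hr hRR hA (φ (a : K)) (hφ _) hint (by
    intro m hm
    apply ham m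
    apply FaithfulSMul.algebraMap_injective (𝓞 K) K
    apply φ.injective
    rw [map_intCast, map_intCast]
    exact hm)
  have hmin : minpoly ℚ (φ (a : K)) = minpoly ℚ (a : K) := by
    have := minpoly.algHom_eq (φ.toRatAlgHom) φ.injective (a : K)
    exact this
  rw [hmin] at hβ
  have hroot : β ∈ (minpoly ℚ (a : K)).rootSet ℂ := by
    rw [mem_rootSet]
    exact ⟨minpoly.ne_zero (Algebra.IsIntegral.isIntegral _), hβ⟩
  rw [← NumberField.Embeddings.range_eval_eq_rootSet_minpoly K ℂ (a : K)] at hroot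
  obtain ⟨ψ, hψ⟩ := hroot
  have h1 := haw (InfinitePlace.mk ψ)
  rw [InfinitePlace.apply] at h1
  have hψ' : ψ (a : K) = β := hψ
  rw [hψ'] at h1
  linarith

end Pool.Agent.R852.FC
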