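import Pool.Agent.R852.FC.Pts
import Pool.Agent.R852.BC.Rank

set_option autoImplicit false

/-! The algebraic integers of the field generated by the Chern roots have a large conjugate. -/

namespace Pool.Agent.R852.FC

open Polynomial NumberField Filter Pool.Agent.R852.BC Pool.Agent.R920.CH

lemma card_gal_le {L : Type} [Field L] [NumberField L] [IsGalois ℚ L] {P : ℤ[X]} (hP : P.Monic)
    (hgen : Algebra.adjoin ℚ {u : L | aeval u P = 0} = ⊤) :
    Fintype.card Gal(L/ℚ) ≤ P.natDegree ^ P.natDegree := by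
  classical
  set s := (rts L P).toFinset with hs
  have hcard : s.card ≤ P.natDegree := by
    refine (Multiset.toFinset_card_le _).trans ?_
    unfold rts
    exact (card_roots' _).trans natDegree_map_le
  let F : Gal(L/ℚ) → (s → s) := fun σ u => ⟨σ • (u : 𝓞 L),
    Multiset.mem_toFinset.mpr (smul_mem_rts hP σ (Multiset.mem_toFinset.mp u.2))⟩
  have hF : Function.Injective F := by
    intro σ τ h
    have h1 : (σ : L →ₐ[ℚ] L) = (τ : L →ₐ[ℚ] L) := by
      apply AlgHom.ext_of_adjoin_eq_top hgen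
      intro u hu
      have hu' : aeval u P = 0 := hu
      have hui : IsIntegral ℤ u := ⟨P, hP, by rw [← aeval_def]; exact hu'⟩
      let w : 𝓞 L := ⟨u, hui⟩
      have hw : aeval w P = 0 := by
        apply FaithfulSMul.algebraMap_injective (𝓞 L) L
        rw [map_zero]
        have h1 := Polynomial.aeval_algebraMap_apply L w P
        rw [← h1]
        exact hu'
      have hws : w ∈ s := by
        rw [hs, Multiset.mem_toFinset, mem_rts hP]
        exact hw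
      have h2 := congrFun h ⟨w, hws⟩
      have h3 := congrArg (fun z : s => ((z : 𝓞 L) : L)) h2
      exact h3
    ext z
    exact DFunLike.congr_fun h1 z
  have h1 := Fintype.card_le_of_injective F hF
  rw [Fintype.card_fun, Fintype.card_coe] at h1
  refine h1.trans ?_
  rcases Nat.eq_zero_or_pos P.natDegree with h0 | h0
  · have : s.card = 0 := by omega
    rw [this, h0]
  · exact (Nat.pow_le_pow_left hcard _).trans (Nat.pow_le_pow_right h0 hcard)

lemma house_aux {L : Type} [Field L] [i : Algebra ℚ L] {P : ℤ[X]} (hP : P.Monic)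
    [hs : IsSplittingField ℚ L (P.map (Int.castRingHom ℚ))] (T₀ : ℝ) (hT₀ : 1 ≤ T₀)
    (hc : ∀ i, ((|P.coeff i| : ℤ) : ℝ) ≤ T₀) (j : L →+* ℂ) (α : L) (hα : IsIntegral ℤ α)
    (hαm : ∀ m : ℤ, α ≠ m) :
    ∃ B : ℤ, B ≠ 0 ∧ ((|B| : ℤ) : ℝ) ≤ (4 * T₀) ^ (P.natDegree ^ 2) ∧
      ∀ (b H : ℕ) (T : ℝ), 1 ≤ b → 1 ≤ T → (∀ σ : L ≃ₐ[ℚ] L, ‖j (σ α)‖ ≤ T) →
      ∀ k₀ M : ℕ, b * (P.natDegree ^ P.natDegree * (2 * H + 1)) ≤ M →
      (∀ (p : ℕ) [Fact p.Prime], p < M → k₀ < p → ∃ (r : ℕ) (x : Fin r → ZMod p),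
        P.map (Int.castRingHom (ZMod p)) = ∏ i, (X - C (x i))) →
      ∀ K : ℕ, 1 ≤ K → k₀ ≤ K →
      Real.log (b * (2 * H + 1)) ≤
        Real.log (2 * b * T + 2 * H) + 4 + (K + Real.log |(B : ℝ)| / K) := by
  classical
  haveI : CharZero L := charZero_of_injective_algebraMap (algebraMap ℚ L).injective
  obtain rfl : i = DivisionRing.toRatAlgebra := Subsingleton.elim _ _
  haveI : FiniteDimensional ℚ L := IsSplittingField.finiteDimensional L (P.map (Int.castRingHom ℚ))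
  haveI : NumberField L := {}
  haveI : Normal ℚ L := Normal.of_isSplittingField (P.map (Int.castRingHom ℚ))
  haveI : IsGalois ℚ L := {}
  have hgen : Algebra.adjoin ℚ {u : L | aeval u P = 0} = ⊤ := by
    rw [eq_top_iff, ← hs.adjoin_rootSet']
    apply Algebra.adjoin_mono
    intro u hu
    have hu' := (mem_rootSet.mp hu).2
    show aeval u P = 0
    rw [aeval_def, eval₂_map] at hu'
    have e : algebraMap ℤ L = (algebraMap ℚ L).comp (Int.castRingHom ℚ) := RingHom.ext_int _ _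
    rw [aeval_def, e]
    exact hu'
  obtain ⟨B, hB0, hB⟩ := exists_b (L := L) hP
  refine ⟨B, hB0, b_bound hP B hB T₀ hT₀ hc, ?_⟩
  intro b H T hb hT hσ k₀ M hM hsplit K hK hkK
  let a : 𝓞 L := ⟨α, hα⟩
  have ha : ∀ m : ℤ, a ≠ m := by
    intro m h
    apply hαm m
    have := congrArg (algebraMap (𝓞 L) L) h
    rw [map_intCast] at this
    exact this
  refine basic j a ha b H hb T hT (fun σ => hσ σ) (fun p => p ≤ k₀ ∨ (p : ℤ) ∣ B) M ?_ ?_ _ ?_
  · rw [card_pts]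
    refine le_trans ?_ hM
    apply Nat.mul_le_mul_left
    apply Nat.mul_le_mul_right
    exact (card_conj_le a).trans (card_gal_le hP hgen)
  · intro p _ hpM hbad
    push Not at hbad
    obtain ⟨r, x, hx⟩ := hsplit p hpM hbad.1
    exact emb hP hgen B hB p hbad.2 x hx
  · intro m
    convert bad_sum m K k₀ hK hkK B hB0 (fun p => p ≤ k₀ ∨ (p : ℤ) ∣ B) (fun p hp => hp)

/-- the numerical part -/
lemma house_num (R r : ℕ) (hR : 1 ≤ R) (A₂ ε : ℝ) (hA₂ : 0 ≤ A₂) (hε : 0 < ε) (hε1 : ε ≤ 1) :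
    ∃ K : ℕ, 1 ≤ K ∧ r ≤ K ∧ ∀ᶠ n : ℕ in atTop, ∃ b H : ℕ, 1 ≤ b ∧
      b * (R * (2 * H + 1)) ≤ n - r ∧
      ¬ (Real.log (b * (2 * H + 1)) ≤ Real.log (2 * b * (n : ℝ) ^ (1 - ε) + 2 * H) + 4 +
        (K + A₂ * Real.log n / K)) := by
  set δ : ℝ := ε / 3 with hδ
  have hδ0 : 0 < δ := by positivity
  have hδ1 : δ ≤ 1 / 3 := by rw [hδ]; linarith
  set K : ℕ := max (max r 1) ⌈2 * A₂ / δ⌉₊ with hK
  have hK1 : 1 ≤ K := (le_max_right r 1).trans (le_max_left _ _)
  have hKr : r ≤ K := (le_max_left r 1).trans (le_max_left _ _)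
  have hK0 : (0 : ℝ) < K := by exact_mod_cast hK1
  have hKA : A₂ / K ≤ δ / 2 := by
    have h1 : 2 * A₂ / δ ≤ K := (Nat.le_ceil _).trans (by exact_mod_cast le_max_right _ _)
    rw [div_le_iff₀ hδ0] at h1
    rw [div_le_div_iff₀ hK0 two_pos]
    linarith
  refine ⟨K, hK1, hKr, ?_⟩
  have tc : Tendsto (fun q : ℕ => (q : ℝ)) atTop atTop := tendsto_natCast_atTop_atTop
  have f1 : ∀ᶠ x : ℝ in atTop, 2 * Real.exp (4 + K) ≤ x ^ (δ / 2) :=
    (tendsto_rpow_atTop (by positivity : (0 : ℝ) < δ / 2)).eventually_ge_atTop _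
  have f2 : ∀ᶠ x : ℝ in atTop, 16 * (R : ℝ) + 2 ≤ x ^ δ :=
    (tendsto_rpow_atTop hδ0).eventually_ge_atTop _
  have f3 : ∀ᶠ x : ℝ in atTop, 4 * (R : ℝ) + 2 * r + 2 ≤ x ^ (1 / 3 : ℝ) :=
    (tendsto_rpow_atTop (by norm_num : (0 : ℝ) < 1 / 3)).eventually_ge_atTop _
  filter_upwards [tc.eventually f1, tc.eventually f2, tc.eventually f3, eventually_ge_atTop 2]
    with n g1 g2 g3 hn
  have hn1 : (1 : ℝ) ≤ n := by exact_mod_cast (by omega : 1 ≤ n)
  have hn0 : (0 : ℝ) < n := by linarith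
  have hR1 : (1 : ℝ) ≤ R := by exact_mod_cast hR
  set y : ℝ := (n : ℝ) ^ δ with hy
  have hy0 : 0 < y := Real.rpow_pos_of_pos hn0 _
  set b : ℕ := ⌈y⌉₊ with hb
  have hyb : y ≤ b := Nat.le_ceil _
  have hb2 : (b : ℝ) ≤ 2 * y := by
    have h1 : (b : ℝ) ≤ y + 1 := (Nat.ceil_lt_add_one hy0.le).le
    linarith
  have hb1 : 1 ≤ b := by
    have : (1 : ℝ) ≤ b := by linarith
    exact_mod_cast this
  have hbr : (1 : ℝ) ≤ b := by exact_mod_cast hb1
  set H : ℕ := n / (4 * b * R) with hH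
  have hq : 0 < 4 * b * R := by positivity
  have hH1 : H * (4 * b * R) ≤ n := Nat.div_mul_le_self _ _
  have hH2 : n < (H + 1) * (4 * b * R) := by
    have := Nat.lt_div_mul_add hq (a := n)
    rw [← hH] at this
    linarith
  -- `n ^ (2/3) n ^ (1/3) = n`
  have hnn : (n : ℝ) ^ (2 / 3 : ℝ) * (n : ℝ) ^ (1 / 3 : ℝ) = n := by
    rw [← Real.rpow_add hn0]
    norm_num
  have hy3 : y ≤ (n : ℝ) ^ (1 / 3 : ℝ) := Real.rpow_le_rpow_of_exponent_le hn1 hδ1
  have hn13 : 1 ≤ (n : ℝ) ^ (1 / 3 : ℝ) := Real.one_le_rpow hn1 (by norm_num)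
  have hn23 : (n : ℝ) ^ (1 / 3 : ℝ) ≤ (n : ℝ) ^ (2 / 3 : ℝ) :=
    Real.rpow_le_rpow_of_exponent_le hn1 (by norm_num)
  refine ⟨b, H, hb1, ?_, ?_⟩
  · have h1 : b * R + r ≤ n / 2 := by
      rw [Nat.le_div_iff_mul_le two_pos]
      have h2 : ((b : ℝ) * R + r) * 2 ≤ n := by
        calc ((b : ℝ) * R + r) * 2 ≤ (2 * (n : ℝ) ^ (1 / 3 : ℝ) * R + r) * 2 := by
              have : (b : ℝ) * R ≤ 2 * (n : ℝ) ^ (1 / 3 : ℝ) * R :=
                mul_le_mul_of_nonneg_right (by linarith) (by linarith)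
              linarith
          _ ≤ (4 * (R : ℝ) + 2 * r + 2) * (n : ℝ) ^ (1 / 3 : ℝ) := by
              have hr0 : (0 : ℝ) ≤ r := Nat.cast_nonneg _
              nlinarith
          _ ≤ (n : ℝ) ^ (1 / 3 : ℝ) * (n : ℝ) ^ (1 / 3 : ℝ) :=
              mul_le_mul_of_nonneg_right g3 (by linarith)
          _ ≤ (n : ℝ) ^ (2 / 3 : ℝ) * (n : ℝ) ^ (1 / 3 : ℝ) :=
              mul_le_mul_of_nonneg_right hn23 (by linarith)
          _ = n := hnn
      exact_mod_cast h2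
    have h3 : b * (R * (2 * H + 1)) * 2 ≤ n + 2 * (b * R) := by
      have e : b * (R * (2 * H + 1)) * 2 = H * (4 * b * R) + 2 * (b * R) := by ring
      rw [e]
      omega
    omega
  · intro hle
    have hT0 : 0 < (n : ℝ) ^ (1 - ε) := Real.rpow_pos_of_pos hn0 _
    have hH0 : (0 : ℝ) ≤ H := Nat.cast_nonneg _
    set X : ℝ := 2 * b * (n : ℝ) ^ (1 - ε) + 2 * H with hX
    have hX0 : 0 < X := by
      have : 0 < 2 * (b : ℝ) * (n : ℝ) ^ (1 - ε) := by positivity
      linarith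
    -- exponentiate
    have h1 : (b : ℝ) * (2 * H + 1) ≤ X * Real.exp (4 + K + A₂ * Real.log n / K) := by
      have h2 := Real.exp_le_exp.mpr hle
      rw [Real.exp_log (by positivity)] at h2
      have e : Real.log X + 4 + (K + A₂ * Real.log n / K) =
          Real.log X + (4 + K + A₂ * Real.log n / K) := by ring
      rw [e, Real.exp_add, Real.exp_log hX0] at h2
      exact h2
    have h2 : Real.exp (4 + K + A₂ * Real.log n / K) ≤ b / 2 := by
      have hln : 0 ≤ Real.log n := Real.log_nonneg hn1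
      have h3 : A₂ * Real.log n / K ≤ δ / 2 * Real.log n := by
        have := mul_le_mul_of_nonneg_right hKA hln
        rwa [div_mul_eq_mul_div] at this
      calc Real.exp (4 + K + A₂ * Real.log n / K)
          ≤ Real.exp (4 + K + δ / 2 * Real.log n) := Real.exp_le_exp.mpr (by linarith)
        _ = Real.exp (4 + K) * (n : ℝ) ^ (δ / 2) := by
            rw [Real.exp_add, mul_comm (δ / 2), ← Real.rpow_def_of_pos hn0]
        _ ≤ ((n : ℝ) ^ (δ / 2) / 2) * (n : ℝ) ^ (δ / 2) := by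
            apply mul_le_mul_of_nonneg_right _ (by positivity)
            linarith
        _ = y / 2 := by
            rw [div_mul_eq_mul_div, ← Real.rpow_add hn0, add_halves]
        _ ≤ b / 2 := by linarith
    have h3 : (b : ℝ) * (2 * H + 1) ≤ b * (X / 2) := by
      calc (b : ℝ) * (2 * H + 1) ≤ X * (b / 2) :=
            h1.trans (mul_le_mul_of_nonneg_left h2 hX0.le)
        _ = b * (X / 2) := by ring
    have h4 : (2 : ℝ) * H + 1 ≤ X / 2 := le_of_mul_le_mul_left h3 (by linarith)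
    have h5 : (H : ℝ) + 1 ≤ b * (n : ℝ) ^ (1 - ε) := by
      rw [hX] at h4
      linarith
    -- the contradiction
    have h6 : (n : ℝ) < (H + 1) * (4 * b * R) := by exact_mod_cast hH2
    have h7 : (n : ℝ) < 4 * R * b ^ 2 * (n : ℝ) ^ (1 - ε) := by
      calc (n : ℝ) < (H + 1) * (4 * b * R) := h6
        _ ≤ (b * (n : ℝ) ^ (1 - ε)) * (4 * b * R) :=
            mul_le_mul_of_nonneg_right h5 (by positivity)
        _ = 4 * R * b ^ 2 * (n : ℝ) ^ (1 - ε) := by ring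
    have h8 : 4 * R * (b : ℝ) ^ 2 * (n : ℝ) ^ (1 - ε) ≤ n := by
      calc 4 * R * (b : ℝ) ^ 2 * (n : ℝ) ^ (1 - ε)
          ≤ 4 * R * (2 * y) ^ 2 * (n : ℝ) ^ (1 - ε) := by gcongr
        _ = (16 * R) * (y * y * (n : ℝ) ^ (1 - ε)) := by ring
        _ ≤ y * (y * y * (n : ℝ) ^ (1 - ε)) := by
            apply mul_le_mul_of_nonneg_right (by linarith) (by positivity)
        _ = n := by
            rw [hy, ← Real.rpow_add hn0, ← Real.rpow_add hn0, ← Real.rpow_add hn0]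
            have : δ + (δ + δ + (1 - ε)) = 1 := by rw [hδ]; ring
            rw [this, Real.rpow_one]
    linarith

/-- **The house.** -/
theorem house (r : ℕ) (A ε : ℝ) (hε : 0 < ε) : ∀ᶠ n : ℕ in atTop, ∀ P : ℤ[X], P.Monic →
    P.natDegree = r → RiemannRoch n P → (∀ i, (|P.coeff i| : ℤ) ≤ (n : ℝ) ^ A) →
    ∀ (L : Type) [Field L] [Algebra ℚ L] [IsSplittingField ℚ L (P.map (Int.castRingHom ℚ))]
      (j : L →+* ℂ) (α : L), IsIntegral ℤ α → (∀ m : ℤ, α ≠ m) →
      ∃ σ : L ≃ₐ[ℚ] L, (n : ℝ) ^ (1 - ε) < ‖j (σ α)‖ := by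
  wlog hε1 : ε ≤ 1 generalizing ε
  · filter_upwards [this 1 one_pos le_rfl, eventually_ge_atTop 1]
      with n hn hn1 P hP hr hRR hA L _ _ _ j α hα hαm
    obtain ⟨σ, hσ⟩ := hn P hP hr hRR hA L j α hα hαm
    refine ⟨σ, lt_of_le_of_lt ?_ hσ⟩
    apply Real.rpow_le_rpow_of_exponent_le (by exact_mod_cast hn1)
    linarith
  set A' : ℝ := max A 0 with hA'
  have hA'0 : 0 ≤ A' := le_max_right _ _
  set A₂ : ℝ := (A' + 1) * (r ^ 2 : ℕ) with hA₂
  have hA₂0 : 0 ≤ A₂ := by positivity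
  obtain ⟨K, hK1, hKr, hK⟩ := house_num (r ^ r + 1) r (by omega) A₂ ε hA₂0 hε hε1
  filter_upwards [hK, eventually_ge_atTop 4]
    with n hn hn4 P hP hr hRR hA L _ _ _ j α hα hαm
  have hn4' : (4 : ℝ) ≤ n := by exact_mod_cast hn4
  have hn0 : (0 : ℝ) < n := by linarith
  have hn1 : (1 : ℝ) ≤ n := by linarith
  obtain ⟨b, H, hb1, hbH, hnot⟩ := hn
  obtain ⟨B, hB0, hB, hall⟩ := house_aux hP ((n : ℝ) ^ A') (Real.one_le_rpow hn1 hA'0)
    (fun i => (hA i).trans (Real.rpow_le_rpow_of_exponent_le hn1 (le_max_left _ _))) j α hα hαm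
  by_contra hcon
  push Not at hcon
  have hBlog : Real.log |(B : ℝ)| ≤ A₂ * Real.log n := by
    push_cast at hB
    have h1 : |(B : ℝ)| ≤ (n : ℝ) ^ A₂ := by
      refine hB.trans ?_
      rw [hr]
      calc (4 * (n : ℝ) ^ A') ^ (r ^ 2) ≤ ((n : ℝ) * (n : ℝ) ^ A') ^ (r ^ 2) := by gcongr
        _ = ((n : ℝ) ^ (A' + 1)) ^ (r ^ 2) := by
            rw [Real.rpow_add hn0, Real.rpow_one, mul_comm]
        _ = (n : ℝ) ^ A₂ := by
            rw [← Real.rpow_natCast, ← Real.rpow_mul hn0.le]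
    have h2 := Real.log_le_log (abs_pos.mpr (by exact_mod_cast hB0)) h1
    rwa [Real.log_rpow hn0] at h2
  have h1 := hall b H ((n : ℝ) ^ (1 - ε)) hb1 (Real.one_le_rpow hn1 (by linarith)) hcon r (n - r)
    (by
      rw [hr]
      refine le_trans ?_ hbH
      apply Nat.mul_le_mul_left
      apply Nat.mul_le_mul_right
      omega)
    (fun p _ hpM hrp => by
      obtain ⟨x, hx⟩ := splits_mod P hP hr hRR p hrp (by omega)
      exact ⟨r, x, hx⟩)
    K hK1 hKr
  apply hnot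
  have hK0 : (0 : ℝ) < K := by exact_mod_cast hK1
  have h2 : Real.log |(B : ℝ)| / K ≤ A₂ * Real.log n / K :=
    div_le_div_of_nonneg_right hBlog hK0.le
  linarith

end Pool.Agent.R852.FC
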