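import Mathlib.Data.Nat.Factorial.SuperFactorial
import Mathlib.NumberTheory.Padics.PadicVal.Basic
import Mathlib.Analysis.SpecialFunctions.Log.Basic
import Mathlib.Analysis.SpecialFunctions.Pow.Real
import Mathlib.Algebra.BigOperators.Associated
import Mathlib.Algebra.BigOperators.Field
import Mathlib.NumberTheory.PrimeCounting
import Mathlib.NumberTheory.Padics.PadicVal.Basic
import Mathlib.Data.Nat.Prime.Factorial

set_option autoImplicit false

/-! Estimates for superfactorials. -/

namespace Pool.Agent.R852.FC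

open Finset Nat

lemma sf_ne_zero (m : ℕ) : m.superFactorial ≠ 0 := by
  induction m with
  | zero => simp
  | succ m ih =>
    rw [Nat.superFactorial_succ]
    exact mul_ne_zero (Nat.factorial_ne_zero _) ih

lemma log_fact_ge (k : ℕ) : (k : ℝ) * Real.log k - k ≤ Real.log (k.factorial : ℝ) := by
  induction k with
  | zero => simp
  | succ k ih =>
    rcases Nat.eq_zero_or_pos k with h0 | h0
    · subst h0
      simp
    · have hk : (0 : ℝ) < k := by exact_mod_cast h0
      rw [Nat.factorial_succ]
      push_cast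
      rw [Real.log_mul (by positivity) (by positivity)]
      have h1 : Real.log ((k : ℝ) + 1) - Real.log k ≤ 1 / k := by
        rw [← Real.log_div (by positivity) (by positivity)]
        have := Real.log_le_sub_one_of_pos (show (0 : ℝ) < ((k : ℝ) + 1) / k by positivity)
        have e : ((k : ℝ) + 1) / k - 1 = 1 / k := by field_simp; ring
        linarith
      have h2 : (k : ℝ) * (Real.log ((k : ℝ) + 1) - Real.log k) ≤ 1 := by
        have := mul_le_mul_of_nonneg_left h1 hk.le
        rwa [mul_one_div_cancel hk.ne'] at this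
      nlinarith

lemma sf_lower (m : ℕ) : ((m : ℝ) + 1) ^ 2 * Real.log ((m : ℝ) + 1) - 4 * ((m : ℝ) + 1) ^ 2 ≤
    2 * Real.log (m.superFactorial : ℝ) := by
  induction m with
  | zero => simp
  | succ m ih =>
    have hsf : (0 : ℝ) < m.superFactorial := by
      exact_mod_cast Nat.pos_of_ne_zero (sf_ne_zero m)
    have hf : (0 : ℝ) < (m + 1).factorial := by exact_mod_cast Nat.factorial_pos _
    rw [Nat.superFactorial_succ]
    rw [Nat.cast_mul, Real.log_mul hf.ne' hsf.ne']
    have h1 := log_fact_ge (m + 1)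
    push_cast at h1 ⊢
    set M : ℝ := (m : ℝ) + 1 with hM
    have hM1 : 1 ≤ M := by
      have : (0 : ℝ) ≤ m := Nat.cast_nonneg _
      linarith
    have hM0 : 0 < M := by linarith
    have h2 : Real.log (M + 1) - Real.log M ≤ 1 / M := by
      rw [← Real.log_div (by positivity) (by positivity)]
      have := Real.log_le_sub_one_of_pos (show (0 : ℝ) < (M + 1) / M by positivity)
      have e : (M + 1) / M - 1 = 1 / M := by field_simp; ring
      linarith
    have h3 : (M + 1) ^ 2 * (Real.log (M + 1) - Real.log M) ≤ M + 3 := by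
      have h4 := mul_le_mul_of_nonneg_left h2 (by positivity : (0 : ℝ) ≤ (M + 1) ^ 2)
      have h5 : (M + 1) ^ 2 * (1 / M) = M + 2 + 1 / M := by field_simp; ring
      have h6 : 1 / M ≤ 1 := by rw [div_le_one hM0]; exact hM1
      linarith
    have h7 : Real.log M ≤ M := (Real.log_le_sub_one_of_pos hM0).trans (by linarith)
    nlinarith

lemma val_sf (p : ℕ) [hp : Fact p.Prime] (m : ℕ) :
    2 * ((p - 1) * padicValNat p m.superFactorial) ≤ m * (m + 1) := by
  induction m with
  | zero => simp
  | succ m ih =>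
    rw [Nat.superFactorial_succ, padicValNat.mul (Nat.factorial_ne_zero _) (sf_ne_zero m),
      mul_add, mul_add]
    have h1 : (p - 1) * padicValNat p (m + 1).factorial ≤ m + 1 := by
      rw [sub_one_mul_padicValNat_factorial]
      exact Nat.sub_le _ _
    nlinarith

lemma prime_le_of_dvd_sf (p : ℕ) (hp : p.Prime) (m : ℕ) (h : p ∣ m.superFactorial) : p ≤ m := by
  induction m with
  | zero =>
    rw [Nat.superFactorial_zero] at h
    exact absurd (Nat.dvd_one.mp h) hp.one_lt.ne'
  | succ m ih =>
    rw [Nat.superFactorial_succ, hp.dvd_mul] at h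
    rcases h with h | h
    · exact (Nat.Prime.dvd_factorial hp).mp h
    · exact (ih h).trans (Nat.le_succ m)

open Classical in
/-- the lower bound for an integer divisible by the good part of the square of a superfactorial -/
lemma lower (m : ℕ) (N₀ : ℤ) (hN : N₀ ≠ 0) (bad : ℕ → Prop)
    (hgood : ∀ p : ℕ, p.Prime → p ≤ m → ¬ bad p →
      ((p : ℤ) ^ (2 * padicValNat p m.superFactorial)) ∣ N₀) :
    2 * Real.log (m.superFactorial : ℝ) ≤ Real.log (|(N₀ : ℝ)|) +
      (m : ℝ) * (m + 1) * ∑ p ∈ (Finset.range (m + 1)).filter (fun p => p.Prime ∧ bad p),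
        Real.log p / ((p : ℝ) - 1) := by
  set S := m.superFactorial.primeFactors with hS
  set G := S.filter (fun p => ¬ bad p) with hG
  set B := S.filter (fun p => bad p) with hB
  have hSp : ∀ p ∈ S, p.Prime := fun p hp => Nat.prime_of_mem_primeFactors hp
  have hSm : ∀ p ∈ S, p ≤ m := fun p hp =>
    prime_le_of_dvd_sf p (hSp p hp) m (Nat.dvd_of_mem_primeFactors hp)
  have hfact : (m.superFactorial : ℝ) =
      (∏ p ∈ G, (p : ℝ) ^ (padicValNat p m.superFactorial)) *
      ∏ p ∈ B, (p : ℝ) ^ (padicValNat p m.superFactorial) := by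
    have h1 := Nat.prod_factorization_pow_eq_self (sf_ne_zero m)
    rw [Finsupp.prod, Nat.support_factorization] at h1
    have h2 : (m.superFactorial : ℝ) =
        ∏ p ∈ S, (p : ℝ) ^ (padicValNat p m.superFactorial) := by
      conv_lhs => rw [← h1]
      push_cast
      refine Finset.prod_congr rfl fun p hp => ?_
      rw [Nat.factorization_def _ (hSp p hp)]
    rw [h2, hG, hB, mul_comm]
    exact (Finset.prod_filter_mul_prod_filter_not S (fun p => bad p) _).symm
  have hposG : 0 < ∏ p ∈ G, (p : ℝ) ^ (padicValNat p m.superFactorial) :=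
    Finset.prod_pos fun p hp => by
      have := (hSp p (Finset.mem_filter.mp hp).1).pos
      positivity
  have hposB : 0 < ∏ p ∈ B, (p : ℝ) ^ (padicValNat p m.superFactorial) :=
    Finset.prod_pos fun p hp => by
      have := (hSp p (Finset.mem_filter.mp hp).1).pos
      positivity
  have hNr : 0 < |(N₀ : ℝ)| := abs_pos.mpr (by exact_mod_cast hN)
  -- the good part
  have hGle : (∏ p ∈ G, (p : ℝ) ^ (padicValNat p m.superFactorial)) ^ 2 ≤ |(N₀ : ℝ)| := by
    have h1 : (∏ p ∈ G, (p : ℤ) ^ (2 * padicValNat p m.superFactorial)) ∣ N₀ := by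
      apply Finset.prod_dvd_of_coprime
      · intro p hp q hq hpq
        apply IsCoprime.pow
        rw [Nat.isCoprime_iff_coprime]
        exact (Nat.coprime_primes (hSp p (Finset.mem_filter.mp hp).1)
          (hSp q (Finset.mem_filter.mp hq).1)).mpr hpq
      · intro p hp
        rw [hG, Finset.mem_filter] at hp
        exact hgood p (hSp p hp.1) (hSm p hp.1) hp.2
    have h2 : (∏ p ∈ G, (p : ℤ) ^ (2 * padicValNat p m.superFactorial)) ≤ |N₀| :=
      Int.le_of_dvd (abs_pos.mpr hN) ((dvd_abs _ _).mpr h1)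
    have h3 : ((∏ p ∈ G, (p : ℤ) ^ (2 * padicValNat p m.superFactorial) : ℤ) : ℝ) ≤
        ((|N₀| : ℤ) : ℝ) := by exact_mod_cast h2
    push_cast at h3
    rw [← Finset.prod_pow]
    refine le_trans (le_of_eq (Finset.prod_congr rfl fun p _ => ?_)) h3
    rw [← pow_mul, mul_comm]
  have hGlog : 2 * Real.log (∏ p ∈ G, (p : ℝ) ^ (padicValNat p m.superFactorial)) ≤
      Real.log |(N₀ : ℝ)| := by
    have := Real.log_le_log (by positivity) hGle
    rwa [Real.log_pow, Nat.cast_ofNat] at this
  -- the bad part
  have hBlog : 2 * Real.log (∏ p ∈ B, (p : ℝ) ^ (padicValNat p m.superFactorial)) ≤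
      (m : ℝ) * (m + 1) * ∑ p ∈ (Finset.range (m + 1)).filter (fun p => p.Prime ∧ bad p),
        Real.log p / ((p : ℝ) - 1) := by
    rw [Real.log_prod (fun p hp => by
      have := (hSp p (Finset.mem_filter.mp hp).1).pos
      positivity), Finset.mul_sum, Finset.mul_sum]
    have hsub : B ⊆ (Finset.range (m + 1)).filter (fun p => p.Prime ∧ bad p) := by
      intro p hp
      rw [hB, Finset.mem_filter] at hp
      rw [Finset.mem_filter, Finset.mem_range]
      exact ⟨Nat.lt_succ_of_le (hSm p hp.1), hSp p hp.1, hp.2⟩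
    refine le_trans (Finset.sum_le_sum fun p hp => ?_)
      (Finset.sum_le_sum_of_subset_of_nonneg hsub fun p hp _ => ?_)
    · have hpp := hSp p (Finset.mem_filter.mp hp).1
      haveI : Fact p.Prime := ⟨hpp⟩
      have hp2 : (2 : ℝ) ≤ p := by exact_mod_cast hpp.two_le
      have hlp : 0 ≤ Real.log p := Real.log_nonneg (by linarith)
      have h1 := val_sf p m
      have h2 : 2 * (((p : ℝ) - 1) * (padicValNat p m.superFactorial : ℝ)) ≤ (m : ℝ) * (m + 1) := by
        have h3 : ((2 * ((p - 1) * padicValNat p m.superFactorial) : ℕ) : ℝ) ≤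
            ((m * (m + 1) : ℕ) : ℝ) := by exact_mod_cast h1
        push_cast at h3
        rw [Nat.cast_sub hpp.one_le] at h3
        push_cast at h3
        exact h3
      rw [Real.log_pow]
      have hp1 : (0 : ℝ) < (p : ℝ) - 1 := by linarith
      rw [← mul_div_assoc, le_div_iff₀ hp1]
      nlinarith
    · rw [Finset.mem_filter] at hp
      have hp2 : (2 : ℝ) ≤ p := by exact_mod_cast hp.2.1.two_le
      have hlp : 0 ≤ Real.log p := Real.log_nonneg (by linarith)
      have hp1 : (0 : ℝ) < (p : ℝ) - 1 := by linarith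
      positivity
  rw [hfact, Real.log_mul hposG.ne' hposB.ne']
  linarith

/-- the contribution of the bad primes is small -/
lemma bad_sum (m K k₀ : ℕ) (hK : 1 ≤ K) (hk₀ : k₀ ≤ K) (B : ℤ) (hB : B ≠ 0) (bad : ℕ → Prop)
    [DecidablePred bad] (hbad : ∀ p, bad p → p ≤ k₀ ∨ (p : ℤ) ∣ B) :
    ∑ p ∈ (Finset.range (m + 1)).filter (fun p => p.Prime ∧ bad p), Real.log p / ((p : ℝ) - 1) ≤
      K + Real.log |(B : ℝ)| / K := by
  set S := (Finset.range (m + 1)).filter (fun p => p.Prime ∧ bad p) with hS
  have hSp : ∀ p ∈ S, p.Prime ∧ bad p := fun p hp => (Finset.mem_filter.mp hp).2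
  have hKr : (1 : ℝ) ≤ K := by exact_mod_cast hK
  rw [← Finset.sum_filter_add_sum_filter_not S (fun p => p ≤ K)]
  apply _root_.add_le_add
  · have h1 : ∀ p ∈ S.filter (fun p => p ≤ K), Real.log p / ((p : ℝ) - 1) ≤ 1 := by
      intro p hp
      have hpp := (hSp p (Finset.mem_filter.mp hp).1).1
      have hp2 : (2 : ℝ) ≤ p := by exact_mod_cast hpp.two_le
      rw [div_le_one (by linarith)]
      exact Real.log_le_sub_one_of_pos (by linarith)
    refine (Finset.sum_le_sum h1).trans ?_
    rw [Finset.sum_const, nsmul_eq_mul, mul_one]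
    have h2 : (S.filter (fun p => p ≤ K)) ⊆ Finset.Icc 1 K := by
      intro p hp
      rw [Finset.mem_filter] at hp
      rw [Finset.mem_Icc]
      exact ⟨(hSp p hp.1).1.one_le, hp.2⟩
    have h3 := Finset.card_le_card h2
    rw [Nat.card_Icc] at h3
    have h4 : (S.filter (fun p => p ≤ K)).card ≤ K := by omega
    exact_mod_cast h4
  · set U := S.filter (fun p => ¬ p ≤ K) with hU
    have hUp : ∀ p ∈ U, p.Prime ∧ K < p ∧ (p : ℤ) ∣ B := by
      intro p hp
      rw [hU, Finset.mem_filter] at hp
      have h1 := hSp p hp.1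
      have h2 := hp.2
      refine ⟨h1.1, by omega, ?_⟩
      rcases hbad p h1.2 with h3 | h3
      · omega
      · exact h3
    have h1 : ∀ p ∈ U, Real.log p / ((p : ℝ) - 1) ≤ Real.log p / K := by
      intro p hp
      obtain ⟨hpp, hKp, _⟩ := hUp p hp
      have hp2 : (2 : ℝ) ≤ p := by exact_mod_cast hpp.two_le
      have hlp : 0 ≤ Real.log p := Real.log_nonneg (by linarith)
      have hKp' : (K : ℝ) + 1 ≤ p := by exact_mod_cast hKp
      apply div_le_div_of_nonneg_left hlp (by linarith) (by linarith)
    refine (Finset.sum_le_sum h1).trans ?_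
    rw [← Finset.sum_div]
    apply div_le_div_of_nonneg_right _ (by linarith)
    rw [← Real.log_prod (fun p hp => by
      have := (hUp p hp).1.pos
      positivity)]
    apply Real.log_le_log
    · exact Finset.prod_pos fun p hp => by
        have := (hUp p hp).1.pos
        positivity
    · have h2 : (∏ p ∈ U, p) ≤ B.natAbs := by
        apply Nat.le_of_dvd (Int.natAbs_pos.mpr hB)
        apply Finset.prod_primes_dvd
        · intro p hp
          exact (hUp p hp).1.prime
        · intro p hp
          exact Int.natCast_dvd.mp (hUp p hp).2.2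
      have h3 : ((∏ p ∈ U, p : ℕ) : ℝ) ≤ (B.natAbs : ℝ) := by exact_mod_cast h2
      rw [Nat.cast_natAbs] at h3
      push_cast at h3
      exact h3

end Pool.Agent.R852.FC
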