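import Mathlib.LinearAlgebra.Vandermonde
import Mathlib.NumberTheory.Padics.RingHoms
import Mathlib.Algebra.Order.BigOperators.Group.LocallyFinite

set_option autoImplicit false

/-! Products of differences of `p`-adic integers. -/

namespace Pool.Agent.R852.FC

open Matrix Finset

lemma sf_dvd_padic (p : ℕ) [hp : Fact p.Prime] {m : ℕ} (x : Fin (m + 1) → ℤ_[p]) (v : ℕ)
    (hv : p ^ v ∣ m.superFactorial) : (p : ℤ_[p]) ^ v ∣ (vandermonde x).det := by
  rw [← Ideal.mem_span_singleton, ← PadicInt.ker_toZModPow, RingHom.mem_ker, RingHom.map_det]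
  haveI : NeZero (p ^ v) := ⟨pow_ne_zero _ hp.out.ne_zero⟩
  let a : Fin (m + 1) → ℤ := fun i => ((PadicInt.toZModPow v (x i)).val : ℤ)
  have ha : ∀ i, ((a i : ℤ) : ZMod (p ^ v)) = PadicInt.toZModPow v (x i) := by
    intro i
    show (((PadicInt.toZModPow v (x i)).val : ℤ) : ZMod (p ^ v)) = _
    push_cast
    rw [ZMod.natCast_zmod_val]
  have h1 : (PadicInt.toZModPow v).mapMatrix (vandermonde x) =
      (Int.castRingHom (ZMod (p ^ v))).mapMatrix (vandermonde a) := by
    ext i j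
    rw [RingHom.mapMatrix_apply, RingHom.mapMatrix_apply, Matrix.map_apply, Matrix.map_apply,
      vandermonde_apply, vandermonde_apply, map_pow, map_pow, eq_intCast, ha]
  rw [h1, ← RingHom.map_det]
  obtain ⟨c, hc⟩ := superFactorial_dvd_vandermonde_det a
  rw [hc, map_mul]
  have h2 : (Int.castRingHom (ZMod (p ^ v))) (m.superFactorial : ℤ) = 0 := by
    rw [eq_intCast, Int.cast_natCast, ZMod.natCast_eq_zero_iff]
    exact hv
  rw [h2, zero_mul]

lemma prod_pairs' {K : Type*} [CommRing K] {d : ℕ} (x : Fin d → K) :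
    ∃ e : ℕ, ∏ i, ∏ j ∈ {i}ᶜ, (x i - x j) = (-1) ^ e * (vandermonde x).det ^ 2 := by
  classical
  refine ⟨∑ i : Fin d, (Finset.Ioi i).card, ?_⟩
  rw [det_vandermonde, ← Finset.prod_prod_Ioi_mul_eq_prod_prod_off_diag (fun j i => x i - x j),
    ← Finset.prod_pow_eq_pow_sum, ← Finset.prod_pow, ← Finset.prod_mul_distrib]
  refine Finset.prod_congr rfl fun i _ => ?_
  rw [← Finset.prod_const, ← Finset.prod_pow, ← Finset.prod_mul_distrib]
  refine Finset.prod_congr rfl fun j _ => ?_
  ring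

/-- the product of all differences of a family of `m + 1` `p`-adic integers -/
lemma pairs_dvd (p : ℕ) [hp : Fact p.Prime] {ι : Type*} [DecidableEq ι] (W : Finset ι) {m : ℕ}
    (hW : W.card = m + 1) (f : ι → ℤ_[p]) (v : ℕ) (hv : p ^ v ∣ m.superFactorial) :
    (p : ℤ_[p]) ^ (2 * v) ∣ ∏ w ∈ W, ∏ w' ∈ W.erase w, (f w - f w') := by
  let e : Fin (m + 1) ≃ W := (Fin.castOrderIso hW.symm).toEquiv.trans W.equivFin.symm
  have h1 : ∏ w ∈ W, ∏ w' ∈ W.erase w, (f w - f w') =
      ∏ i : Fin (m + 1), ∏ j ∈ {i}ᶜ, (f (e i) - f (e j)) := by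
    rw [← Finset.prod_coe_sort W, ← e.prod_comp]
    refine Finset.prod_congr rfl fun i _ => ?_
    refine Finset.prod_bij' (fun w' hw' => e.symm ⟨w', Finset.mem_of_mem_erase hw'⟩)
      (fun j _ => (e j : ι)) ?_ ?_ ?_ ?_ ?_
    · intro w' hw'
      rw [Finset.mem_compl, Finset.mem_singleton]
      intro h
      rw [Equiv.symm_apply_eq] at h
      exact (Finset.ne_of_mem_erase hw') (congrArg Subtype.val h)
    · intro j hj
      rw [Finset.mem_compl, Finset.mem_singleton] at hj
      rw [Finset.mem_erase]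
      refine ⟨fun h => hj ?_, (e j).2⟩
      exact e.injective (Subtype.ext h)
    · intro w' hw'
      simp
    · intro j hj
      simp
    · intro w' hw'
      simp
  rw [h1]
  obtain ⟨k, hk⟩ := prod_pairs' (fun i => f (e i))
  rw [hk]
  apply Dvd.dvd.mul_left
  rw [mul_comm 2 v, pow_mul]
  exact pow_dvd_pow_of_dvd (sf_dvd_padic p _ v hv) 2

end Pool.Agent.R852.FC
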