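import Pool.Agent.R852.FC.Emb
import Pool.Agent.R852.FC.Sf
import Pool.Agent.R852.FC.Num

set_option autoImplicit false

/-! The determinant method with the multiples of the conjugates and their translates. -/

namespace Pool.Agent.R852.FC

open Polynomial NumberField Pool.Agent.R852.BC

universe w

variable {L : Type w} [Field L] [NumberField L] [IsGalois ℚ L]

open Classical in
/-- the conjugates -/
noncomputable def conj (α : 𝓞 L) : Finset (𝓞 L) :=
  Finset.univ.image (fun σ : Gal(L/ℚ) => σ • α)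

/-- the indices of the points -/
noncomputable def pts (α : 𝓞 L) (b H : ℕ) : Finset (ℕ × 𝓞 L × ℤ) :=
  Finset.Icc 1 b ×ˢ (conj α ×ˢ Finset.Icc (-(H : ℤ)) H)

/-- the points -/
noncomputable def pt (w : ℕ × 𝓞 L × ℤ) : 𝓞 L := (w.1 : 𝓞 L) * w.2.1 + (w.2.2 : 𝓞 L)

open Classical in
/-- the product of the differences of the points -/
noncomputable def npts (α : 𝓞 L) (b H : ℕ) : 𝓞 L :=
  ∏ w ∈ pts α b H, ∏ w' ∈ (pts α b H).erase w, (pt w - pt w')

lemma smul_pt (σ : Gal(L/ℚ)) (w : ℕ × 𝓞 L × ℤ) : σ • pt w = pt (w.1, σ • w.2.1, w.2.2) := by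
  unfold pt
  show (MulSemiringAction.toRingHom Gal(L/ℚ) (𝓞 L) σ) ((w.1 : 𝓞 L) * w.2.1 + (w.2.2 : 𝓞 L)) = _
  rw [map_add, map_mul, map_natCast, map_intCast]
  rfl

lemma smul_mem_conj (α : 𝓞 L) (σ : Gal(L/ℚ)) {c : 𝓞 L} (hc : c ∈ conj α) : σ • c ∈ conj α := by
  classical
  unfold conj at hc ⊢
  rw [Finset.mem_image] at hc ⊢
  obtain ⟨τ, _, rfl⟩ := hc
  exact ⟨σ * τ, Finset.mem_univ _, mul_smul σ τ α⟩

lemma npts_smul (α : 𝓞 L) (b H : ℕ) (σ : Gal(L/ℚ)) : σ • npts α b H = npts α b H := by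
  classical
  let e : ℕ × 𝓞 L × ℤ → ℕ × 𝓞 L × ℤ := fun w => (w.1, σ • w.2.1, w.2.2)
  have hinj : Function.Injective e := by
    intro w w' h
    simp only [e, Prod.mk.injEq] at h
    obtain ⟨h1, h2, h3⟩ := h
    exact Prod.ext h1 (Prod.ext ((MulAction.injective σ) h2) h3)
  have himg : (pts α b H).image e = pts α b H := by
    apply Finset.eq_of_subset_of_card_le
    · intro v hv
      rw [Finset.mem_image] at hv
      obtain ⟨u, hu, rfl⟩ := hv
      unfold pts at hu ⊢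
      rw [Finset.mem_product, Finset.mem_product] at hu ⊢
      exact ⟨hu.1, smul_mem_conj α σ hu.2.1, hu.2.2⟩
    · rw [Finset.card_image_of_injective _ hinj]
  unfold npts
  rw [Finset.smul_prod']
  nth_rewrite 3 [← himg]
  rw [Finset.prod_image (fun a _ b _ h => hinj h)]
  refine Finset.prod_congr rfl fun u _ => ?_
  rw [Finset.smul_prod']
  nth_rewrite 2 [← himg]
  rw [← Finset.image_erase hinj, Finset.prod_image (fun a _ b _ h => hinj h)]
  refine Finset.prod_congr rfl fun v _ => ?_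
  rw [smul_sub, smul_pt, smul_pt]

lemma exists_emb_complex : Nonempty (𝓞 L →+* ℂ) := by
  obtain ⟨ι⟩ : Nonempty (L →+* ℂ) := inferInstance
  exact ⟨ι.comp (algebraMap (𝓞 L) L)⟩

lemma fixed_int (α : 𝓞 L) (h : ∀ σ : Gal(L/ℚ), σ • α = α) : ∃ m : ℤ, α = m := by
  haveI : IsGaloisGroup Gal(L/ℚ) ℤ (𝓞 L) := inferInstance
  obtain ⟨m, hm⟩ := Algebra.IsInvariant.isInvariant (A := ℤ) (G := Gal(L/ℚ)) α h
  exact ⟨m, by rw [← hm]; rfl⟩

/-- the points are distinct -/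
lemma pt_inj (j : L →+* ℂ) (α : 𝓞 L) (hα : ∀ m : ℤ, α ≠ m) (b H : ℕ) :
    Set.InjOn pt (pts α b H : Set (ℕ × 𝓞 L × ℤ)) := by
  classical
  intro w hw w' hw' h
  rw [Finset.mem_coe] at hw hw'
  unfold pts at hw hw'
  rw [Finset.mem_product, Finset.mem_product] at hw hw'
  obtain ⟨hk, hc, _⟩ := hw
  obtain ⟨hk', hc', _⟩ := hw'
  unfold conj at hc hc'
  rw [Finset.mem_image] at hc hc'
  obtain ⟨τ, _, hτ⟩ := hc
  obtain ⟨τ', _, hτ'⟩ := hc'
  rw [Finset.mem_Icc] at hk hk'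
  set n : ℕ := Fintype.card Gal(L/ℚ) with hn
  have hn0 : n ≠ 0 := Fintype.card_ne_zero
  set S : 𝓞 L := ∑ σ : Gal(L/ℚ), σ • α with hS
  have key : ∀ σ : Gal(L/ℚ), (w.1 : 𝓞 L) * (σ • w.2.1) + (w.2.2 : 𝓞 L) =
      (w'.1 : 𝓞 L) * (σ • w'.2.1) + (w'.2.2 : 𝓞 L) := by
    intro σ
    have h1 := congrArg (fun z => σ • z) h
    simp only [smul_pt] at h1
    exact h1
  have hsum : ∀ τ : Gal(L/ℚ), ∑ σ : Gal(L/ℚ), σ • (τ • α) = S := by
    intro τ
    simp only [smul_smul]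
    exact Equiv.sum_comp (Equiv.mulRight τ) (fun σ : Gal(L/ℚ) => σ • α)
  have hS2 : (w.1 : 𝓞 L) * S + (n : 𝓞 L) * (w.2.2 : 𝓞 L) =
      (w'.1 : 𝓞 L) * S + (n : 𝓞 L) * (w'.2.2 : 𝓞 L) := by
    have h1 : ∑ σ : Gal(L/ℚ), ((w.1 : 𝓞 L) * (σ • w.2.1) + (w.2.2 : 𝓞 L)) =
        ∑ σ : Gal(L/ℚ), ((w'.1 : 𝓞 L) * (σ • w'.2.1) + (w'.2.2 : 𝓞 L)) :=
      Finset.sum_congr rfl fun σ _ => key σ
    rw [Finset.sum_add_distrib, Finset.sum_add_distrib, ← Finset.mul_sum, ← Finset.mul_sum,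
      Finset.sum_const, Finset.sum_const, nsmul_eq_mul, nsmul_eq_mul, Finset.card_univ, ← hτ, ← hτ',
      hsum, hsum] at h1
    exact h1
  let g : 𝓞 L → Gal(L/ℚ) → 𝓞 L := fun c σ => (n : 𝓞 L) * (σ • c) - S
  have hg : ∀ σ : Gal(L/ℚ), (w.1 : 𝓞 L) * g w.2.1 σ = (w'.1 : 𝓞 L) * g w'.2.1 σ := by
    intro σ
    show (w.1 : 𝓞 L) * ((n : 𝓞 L) * (σ • w.2.1) - S) =
      (w'.1 : 𝓞 L) * ((n : 𝓞 L) * (σ • w'.2.1) - S)
    linear_combination (n : 𝓞 L) * key σ - hS2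
  let jj : 𝓞 L →+* ℂ := j.comp (algebraMap (𝓞 L) L)
  have hjj : Function.Injective jj :=
    j.injective.comp (FaithfulSMul.algebraMap_injective (𝓞 L) L)
  let E : ℝ := ∑ σ : Gal(L/ℚ), ‖jj (g α σ)‖
  have hE : ∀ τ : Gal(L/ℚ), ∑ σ : Gal(L/ℚ), ‖jj (g (τ • α) σ)‖ = E := by
    intro τ
    have h1 : ∀ σ : Gal(L/ℚ), g (τ • α) σ = g α (σ * τ) := by
      intro σ
      show (n : 𝓞 L) * (σ • τ • α) - S = (n : 𝓞 L) * ((σ * τ) • α) - S
      rw [mul_smul]
    simp only [h1]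
    exact Equiv.sum_comp (Equiv.mulRight τ) (fun σ : Gal(L/ℚ) => ‖jj (g α σ)‖)
  have hE0 : E ≠ 0 := by
    intro h0
    have h1 : ∀ σ : Gal(L/ℚ), g α σ = 0 := by
      intro σ
      have h2 := (Finset.sum_eq_zero_iff_of_nonneg (fun σ _ => norm_nonneg _)).mp h0 σ
        (Finset.mem_univ _)
      rw [norm_eq_zero] at h2
      apply hjj
      rw [h2, map_zero]
    have hnL : (n : 𝓞 L) ≠ 0 := by exact_mod_cast hn0
    obtain ⟨m, hm⟩ := fixed_int α (by
      intro σ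
      have h2 := h1 σ
      have h3 := h1 1
      have h4 : (n : 𝓞 L) * (σ • α) = (n : 𝓞 L) * α := by
        have e1 : (n : 𝓞 L) * (σ • α) - S = 0 := h2
        have e2 : (n : 𝓞 L) * ((1 : Gal(L/ℚ)) • α) - S = 0 := h3
        rw [one_smul] at e2
        linear_combination e1 - e2
      exact mul_left_cancel₀ hnL h4)
    exact hα m hm
  have hkk : w.1 = w'.1 := by
    have h1 : (w.1 : ℝ) * E = (w'.1 : ℝ) * E := by
      have h2 : ∑ σ : Gal(L/ℚ), ‖jj ((w.1 : 𝓞 L) * g w.2.1 σ)‖ =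
          ∑ σ : Gal(L/ℚ), ‖jj ((w'.1 : 𝓞 L) * g w'.2.1 σ)‖ :=
        Finset.sum_congr rfl fun σ _ => by rw [hg σ]
      simp only [map_mul, norm_mul, map_natCast, Complex.norm_natCast] at h2
      rw [← Finset.mul_sum, ← Finset.mul_sum, ← hτ, ← hτ', hE, hE] at h2
      exact h2
    exact_mod_cast mul_right_cancel₀ hE0 h1
  have hcc : w.2.1 = w'.2.1 := by
    have h1 := hg 1
    rw [hkk] at h1
    have hk0 : (w'.1 : 𝓞 L) ≠ 0 := by
      have : w'.1 ≠ 0 := by omega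
      exact_mod_cast this
    have h2 := mul_left_cancel₀ hk0 h1
    have h3 : (n : 𝓞 L) * ((1 : Gal(L/ℚ)) • w.2.1) - S =
      (n : 𝓞 L) * ((1 : Gal(L/ℚ)) • w'.2.1) - S := h2
    rw [one_smul, one_smul, sub_left_inj] at h3
    have hnL : (n : 𝓞 L) ≠ 0 := by exact_mod_cast hn0
    exact mul_left_cancel₀ hnL h3
  have hss : w.2.2 = w'.2.2 := by
    have h1 := key 1
    rw [hkk, hcc, _root_.add_right_inj] at h1
    exact_mod_cast h1
  exact Prod.ext hkk (Prod.ext hcc hss)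

lemma card_pts (α : 𝓞 L) (b H : ℕ) : (pts α b H).card = b * ((conj α).card * (2 * H + 1)) := by
  unfold pts
  rw [Finset.card_product, Finset.card_product, Nat.card_Icc, Int.card_Icc]
  congr 2
  congr 1
  omega

lemma card_conj_pos (α : 𝓞 L) : 1 ≤ (conj α).card := by
  classical
  rw [Nat.one_le_iff_ne_zero, Ne, Finset.card_eq_zero]
  intro h
  have : (1 : Gal(L/ℚ)) • α ∈ conj α := by
    unfold conj
    exact Finset.mem_image_of_mem _ (Finset.mem_univ _)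
  rw [h] at this
  exact absurd this (Finset.notMem_empty _)

lemma card_conj_le (α : 𝓞 L) : (conj α).card ≤ Fintype.card Gal(L/ℚ) := by
  classical
  unfold conj
  exact Finset.card_image_le

/-- the integer -/
lemma exists_int (j : L →+* ℂ) (α : 𝓞 L) (hα : ∀ m : ℤ, α ≠ m) (b H : ℕ) :
    ∃ N₀ : ℤ, N₀ ≠ 0 ∧ (N₀ : 𝓞 L) = npts α b H := by
  classical
  obtain ⟨m, hm⟩ := fixed_int (npts α b H) (npts_smul α b H)
  refine ⟨m, ?_, hm.symm⟩
  rintro rfl
  rw [Int.cast_zero] at hm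
  unfold npts at hm
  rw [Finset.prod_eq_zero_iff] at hm
  obtain ⟨w, hw, h1⟩ := hm
  rw [Finset.prod_eq_zero_iff] at h1
  obtain ⟨w', hw', h2⟩ := h1
  rw [Finset.mem_erase] at hw'
  rw [sub_eq_zero] at h2
  exact hw'.1 (pt_inj j α hα b H hw'.2 hw h2.symm)

lemma int_le (j : L →+* ℂ) (α : 𝓞 L) (b H : ℕ) (hb : 1 ≤ b) (T : ℝ) (hT : 1 ≤ T)
    (hα : ∀ σ : Gal(L/ℚ), ‖j ((σ • α : 𝓞 L) : L)‖ ≤ T) (N₀ : ℤ)
    (hN : (N₀ : 𝓞 L) = npts α b H) :
    |(N₀ : ℝ)| ≤ (2 * b * T + 2 * H) ^ ((pts α b H).card ^ 2) := by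
  classical
  let jj : 𝓞 L →+* ℂ := j.comp (algebraMap (𝓞 L) L)
  have hbr : (1 : ℝ) ≤ b := by exact_mod_cast hb
  have hbT : 1 ≤ (b : ℝ) * T := one_le_mul_of_one_le_of_one_le hbr hT
  have hH0 : (0 : ℝ) ≤ H := Nat.cast_nonneg _
  have h1X : 1 ≤ 2 * b * T + 2 * H := by nlinarith
  have h1 : |(N₀ : ℝ)| = ‖jj (npts α b H)‖ := by
    rw [← hN, map_intCast, Complex.norm_intCast]
  rw [h1]
  unfold npts
  rw [map_prod, norm_prod]
  have hpt : ∀ w ∈ pts α b H, ‖jj (pt w)‖ ≤ b * T + H := by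
    intro w hw
    unfold pts at hw
    rw [Finset.mem_product, Finset.mem_product] at hw
    obtain ⟨hk, hc, hs⟩ := hw
    unfold conj at hc
    rw [Finset.mem_image] at hc
    obtain ⟨τ, _, hτ⟩ := hc
    rw [Finset.mem_Icc] at hk hs
    unfold pt
    rw [map_add, map_mul, map_natCast, map_intCast]
    refine (norm_add_le _ _).trans ?_
    rw [norm_mul, Complex.norm_natCast, Complex.norm_intCast]
    apply _root_.add_le_add
    · have h2 : ‖jj w.2.1‖ ≤ T := by rw [← hτ]; exact hα τ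
      have h3 : (w.1 : ℝ) ≤ b := by exact_mod_cast hk.2
      exact mul_le_mul h3 h2 (norm_nonneg _) (by positivity)
    · rw [abs_le]
      constructor
      · have : (-(H : ℤ) : ℝ) ≤ (w.2.2 : ℝ) := by exact_mod_cast hs.1
        push_cast at this
        exact this
      · exact_mod_cast hs.2
  calc ∏ w ∈ pts α b H, ‖jj (∏ w' ∈ (pts α b H).erase w, (pt w - pt w'))‖
      ≤ ∏ _w ∈ pts α b H, (2 * b * T + 2 * H) ^ (pts α b H).card := by
        refine Finset.prod_le_prod (fun _ _ => norm_nonneg _) fun w hw => ?_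
        rw [map_prod, norm_prod]
        calc ∏ w' ∈ (pts α b H).erase w, ‖jj (pt w - pt w')‖
            ≤ ∏ _w' ∈ (pts α b H).erase w, (2 * b * T + 2 * H) := by
              refine Finset.prod_le_prod (fun _ _ => norm_nonneg _) fun w' hw' => ?_
              rw [map_sub]
              refine (norm_sub_le _ _).trans ?_
              have e1 := hpt w hw
              have e2 := hpt w' (Finset.mem_of_mem_erase hw')
              linarith
          _ = (2 * b * T + 2 * H) ^ ((pts α b H).erase w).card := by rw [Finset.prod_const]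
          _ ≤ (2 * b * T + 2 * H) ^ (pts α b H).card :=
              pow_le_pow_right₀ h1X Finset.card_erase_le
    _ = (2 * b * T + 2 * H) ^ ((pts α b H).card ^ 2) := by
        rw [Finset.prod_const, ← pow_mul, pow_two]

lemma int_dvd (α : 𝓞 L) (b H : ℕ) (N₀ : ℤ) (hN : (N₀ : 𝓞 L) = npts α b H) (m : ℕ)
    (hm : (pts α b H).card = m + 1) (p : ℕ) [hp : Fact p.Prime] (ι : 𝓞 L →+* ℤ_[p]) :
    ((p : ℤ) ^ (2 * padicValNat p m.superFactorial)) ∣ N₀ := by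
  classical
  have h1 := pairs_dvd p (pts α b H) hm (fun w => ι (pt w)) (padicValNat p m.superFactorial)
    pow_padicValNat_dvd
  have h2 : ι (N₀ : 𝓞 L) = ∏ w ∈ pts α b H, ∏ w' ∈ (pts α b H).erase w, (ι (pt w) - ι (pt w')) := by
    rw [hN]
    unfold npts
    rw [map_prod]
    refine Finset.prod_congr rfl fun w _ => ?_
    rw [map_prod]
    exact Finset.prod_congr rfl fun w' _ => map_sub _ _ _
  rw [← h2, map_intCast, PadicInt.pow_p_dvd_int_iff] at h1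
  exact h1

open Classical in
/-- **The basic inequality.** -/
theorem basic (j : L →+* ℂ) (α : 𝓞 L) (hα : ∀ m : ℤ, α ≠ m) (b H : ℕ) (hb : 1 ≤ b) (T : ℝ)
    (hT : 1 ≤ T) (hαT : ∀ σ : Gal(L/ℚ), ‖j ((σ • α : 𝓞 L) : L)‖ ≤ T) (bad : ℕ → Prop)
    (M : ℕ) (hM : (pts α b H).card ≤ M)
    (hgood : ∀ (p : ℕ) [Fact p.Prime], p < M → ¬ bad p → Nonempty (𝓞 L →+* ℤ_[p]))
    (C : ℝ) (hC : ∀ m : ℕ, ∑ p ∈ (Finset.range (m + 1)).filter (fun p => p.Prime ∧ bad p),
        Real.log p / ((p : ℝ) - 1) ≤ C) :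
    Real.log (b * (2 * H + 1)) ≤ Real.log (2 * b * T + 2 * H) + 4 + C := by
  have hcard := card_pts α b H
  have hc1 := card_conj_pos α
  have hpos : 1 ≤ (pts α b H).card := by
    rw [hcard]
    exact Nat.mul_pos hb (Nat.mul_pos hc1 (by omega))
  obtain ⟨m, hm⟩ : ∃ m, (pts α b H).card = m + 1 := ⟨(pts α b H).card - 1, by omega⟩
  obtain ⟨N₀, hN0, hN⟩ := exists_int j α hα b H
  have hC0 : 0 ≤ C := by
    refine le_trans ?_ (hC 0)
    apply Finset.sum_nonneg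
    intro p hp
    rw [Finset.mem_filter] at hp
    have hp2 : (2 : ℝ) ≤ p := by exact_mod_cast hp.2.1.two_le
    have hlp : 0 ≤ Real.log p := Real.log_nonneg (by linarith)
    have hp1 : (0 : ℝ) < (p : ℝ) - 1 := by linarith
    positivity
  have h1 := lower m N₀ hN0 bad (fun p hp hpm hbp => by
    haveI : Fact p.Prime := ⟨hp⟩
    obtain ⟨ι⟩ := hgood p (by omega) hbp
    exact int_dvd α b H N₀ hN m hm p ι)
  have h2 := sf_lower m
  have h3 := int_le j α b H hb T hT hαT N₀ hN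
  rw [hm] at h3
  have hbr : (1 : ℝ) ≤ b := by exact_mod_cast hb
  have hbT : 1 ≤ (b : ℝ) * T := one_le_mul_of_one_le_of_one_le hbr hT
  have hH0 : (0 : ℝ) ≤ H := Nat.cast_nonneg _
  have hX : 0 < 2 * b * T + 2 * H := by nlinarith
  have h4 : Real.log |(N₀ : ℝ)| ≤ ((m : ℝ) + 1) ^ 2 * Real.log (2 * b * T + 2 * H) := by
    have h5 := Real.log_le_log (abs_pos.mpr (by exact_mod_cast hN0)) h3
    rw [Real.log_pow] at h5
    push_cast at h5
    exact h5
  have h5 : (∑ p ∈ (Finset.range (m + 1)).filter (fun p => p.Prime ∧ bad p),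
      Real.log p / ((p : ℝ) - 1)) ≤ C := hC m
  have hm0 : (0 : ℝ) ≤ m := Nat.cast_nonneg _
  have h6 : (m : ℝ) * (m + 1) * (∑ p ∈ (Finset.range (m + 1)).filter (fun p => p.Prime ∧ bad p),
      Real.log p / ((p : ℝ) - 1)) ≤ ((m : ℝ) + 1) ^ 2 * C := by
    calc (m : ℝ) * (m + 1) * (∑ p ∈ (Finset.range (m + 1)).filter (fun p => p.Prime ∧ bad p),
          Real.log p / ((p : ℝ) - 1)) ≤ (m : ℝ) * (m + 1) * C :=
          mul_le_mul_of_nonneg_left h5 (by positivity)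
      _ ≤ ((m : ℝ) + 1) ^ 2 * C := by
          apply mul_le_mul_of_nonneg_right _ hC0
          nlinarith
  have h7 : ((m : ℝ) + 1) ^ 2 * Real.log ((m : ℝ) + 1) ≤
      ((m : ℝ) + 1) ^ 2 * (Real.log (2 * b * T + 2 * H) + 4 + C) := by
    have h8 := (h2.trans h1).trans (_root_.add_le_add h4 h6)
    linarith
  have h9 : Real.log ((m : ℝ) + 1) ≤ Real.log (2 * b * T + 2 * H) + 4 + C :=
    le_of_mul_le_mul_left h7 (by positivity)
  refine le_trans ?_ h9
  apply Real.log_le_log (by positivity)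
  have h10 : b * (2 * H + 1) ≤ m + 1 := by
    rw [← hm, hcard]
    apply Nat.mul_le_mul_left
    exact Nat.le_mul_of_pos_left _ hc1
  exact_mod_cast h10

end Pool.Agent.R852.FC
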